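import Pool.Agent.U587.ET.Amp

set_option autoImplicit false

/-!
# Cubic averages: one divergent map gives a flow which diverges at all times but a set of dimension zero

`Converges μ T f g h`: the averages `(1/N) ∑_{n ≤ N} f(T^n x) g(T^(2n) x) h(T^(3n) x)` of the problem converge for almost
every `x`. `Q1` is the assertion of the problem: this is true for every invertible measure preserving map `T` of a
probability space and all `f, g, h` in `L^∞`. `Tiny D`: for every `q > 3` the Hausdorff measure of `D` for the gauge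
`(log (1/r))^(-q)` is zero, and the Hausdorff dimension of `D` is zero.

1. Let `T` be an invertible measure preserving map and `f, g, h` in `L^∞` such that the averages do not converge almost
   everywhere. Then on `[0,1) × X` (with the product measure; it is written as a probability measure on `ℝ × X`) there
   are a measurable measure preserving flow `S` (the suspension flow of `T`) and `F, G, H` in `L^∞` such that the
   averages of `F, G, H` for the map `S_a` fail to converge almost everywhere for ALL `a > 0` outside of a tiny set.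
2. The following are equivalent: the assertion `Q1`; for every flow and all `f, g, h` the set of times `a > 0` for which
   the averages for `S_a` do not converge almost everywhere is tiny; for every flow and all `f, g, h` the set of times
   `a > 0` for which they converge almost everywhere is NOT tiny (for instance: it has positive dimension); for every
   flow the continuous averages `(1/V) ∫_0^V f(S_v x) g(S_(2v) x) h(S_(3v) x) dv` converge almost everywhere.

So for a proof of the assertion it is enough to treat, for every flow, some set of times of positive Hausdorff dimension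
(depending on the flow and on the functions), and a single counterexample gives a flow with convergence only at a
set of times of dimension zero.

Proof. `F` has a window in the base: for starting points over `[1/2, 9/16)` the cubic term of the suspension flow at the
time `v` is nonzero only if `v` is in a certain interval of length `1/16` after `n`, and there it is
`f(T^n x) g(T^(2n) x) h(T^(3n) x)` (`Pool.Agent.U587.ET.phi_eq`). Hence the continuous averages of `F, G, H` converge if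
and only if the averages for `T` do. The comparison of the averages at the time `a` with the continuous averages, for all
`a` off a tiny set, is `Pool.Agent.U587.ET.bes_gnull` (hand-in `ExceptionalTimes`).
-/

namespace Pool.Agent.Results.MP_9721b5_an.AmplificationByFlows

open MeasureTheory Filter Finset

universe u

/-- a measurable measure preserving flow -/
structure IsFlow {X : Type u} [MeasurableSpace X] (μ : Measure X) (τ : ℝ → X → X) : Prop where
  meas : Measurable (fun p : ℝ × X => τ p.1 p.2)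
  zero : ∀ x, τ 0 x = x
  add : ∀ s t x, τ (s + t) x = τ s (τ t x)
  mp : ∀ t, MeasurePreserving (τ t) μ μ

/-- Hausdorff measure zero for the gauge `(log (1 / r))^(-q)`: coverings by intervals of lengths `r i ≤ 1 / 2` with
`∑ (log (1 / r i))^(-q) ≤ ε`. (Points, `r i = 0`, cost nothing: in Lean `log (1 / 0) = 0` and `0 ^ (-q) = 0`.) -/
def GaugeNull (q : ℝ) (D : Set ℝ) : Prop := ∀ ε : ℝ, 0 < ε → ∃ c r : ℕ → ℝ, (∀ i, 0 ≤ r i ∧ r i ≤ 1 / 2) ∧
  D ⊆ ⋃ i, Set.Icc (c i) (c i + r i) ∧ Summable (fun i => (Real.log (1 / r i)) ^ (-q)) ∧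
  ∑' i, (Real.log (1 / r i)) ^ (-q) ≤ ε

/-- gauge null for all exponents `q > 3`, and of Hausdorff dimension zero -/
def Tiny (D : Set ℝ) : Prop := (∀ q : ℝ, 3 < q → GaugeNull q D) ∧ dimH D = 0

/-- measurable and essentially bounded -/
def Linf {X : Type u} [MeasurableSpace X] (μ : Measure X) (f : X → ℂ) : Prop :=
  AEStronglyMeasurable f μ ∧ ∃ C : ℝ, ∀ᵐ x ∂μ, ‖f x‖ ≤ C

/-- almost everywhere convergence of the averages of the problem -/
def Converges {X : Type u} [MeasurableSpace X] (μ : Measure X) (T : X → X) (f g h : X → ℂ) : Prop :=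
  ∀ᵐ x ∂μ, ∃ L : ℂ, Tendsto (fun N : ℕ => (1 / (N : ℂ)) * ∑ n ∈ Icc 1 N,
    f (T^[n] x) * g (T^[2 * n] x) * h (T^[3 * n] x)) atTop (nhds L)

/-- almost everywhere convergence of the continuous averages -/
def ConvergesCont {X : Type u} [MeasurableSpace X] (μ : Measure X) (S : ℝ → X → X) (f g h : X → ℂ) : Prop :=
  ∀ᵐ x ∂μ, ∃ L : ℂ, Tendsto (fun V : ℝ => (1 / (V : ℂ)) * ∫ v in (0 : ℝ)..V,
    f (S v x) * g (S (2 * v) x) * h (S (3 * v) x)) atTop (nhds L)

/-- the assertion of the problem -/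
def Q1 : Prop := ∀ (X : Type u) [MeasurableSpace X] (μ : Measure X) [IsProbabilityMeasure μ] (T : X ≃ᵐ X),
  MeasurePreserving T μ μ → ∀ f g h : X → ℂ, Linf μ f → Linf μ g → Linf μ h → Converges μ T f g h

/-- a statement about all flows on probability spaces and all triples of functions in `L^∞` -/
def AllFlows (P : ∀ (X : Type u) [MeasurableSpace X], Measure X → (ℝ → X → X) → (X → ℂ) → (X → ℂ) → (X → ℂ) →
    Prop) : Prop :=
  ∀ (X : Type u) [MeasurableSpace X] (μ : Measure X) [IsProbabilityMeasure μ] (S : ℝ → X → X), IsFlow μ S →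
    ∀ f g h : X → ℂ, Linf μ f → Linf μ g → Linf μ h → P X μ S f g h

lemma Tiny.of {D D' : Set ℝ} (h : ∀ q : ℝ, 3 < q → Pool.Agent.U587.ET.GNull q D') (hD : D ⊆ D') : Tiny D := by
  refine ⟨fun q hq => Pool.Agent.U587.ET.gnull_real ((h q hq).mono hD), ?_⟩
  exact Pool.Agent.U587.ET.gnull_dimH (q := 4) (by norm_num) ((h 4 (by norm_num)).mono hD)

lemma flow_of {X : Type u} [MeasurableSpace X] {μ : Measure X} {τ : ℝ → X → X} (h : IsFlow μ τ) :
    Pool.Agent.Y957.MC.IsFlow μ τ := ⟨h.meas, h.zero, h.add, h.mp⟩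

lemma of_flow {X : Type u} [MeasurableSpace X] {μ : Measure X} {τ : ℝ → X → X}
    (h : Pool.Agent.Y957.MC.IsFlow μ τ) : IsFlow μ τ := ⟨h.meas, h.zero, h.add, h.mp⟩

lemma dimH_Ioi : dimH (Set.Ioi (0 : ℝ)) = 1 := by
  have h := Real.dimH_of_nonempty_interior (E := ℝ) (s := Set.Ioi (0 : ℝ)) (by
    rw [interior_Ioi]
    exact ⟨1, by norm_num⟩)
  rw [h]
  simp

/-- two versions of the functions -/
lemma conv_congr {X : Type u} [MeasurableSpace X] {μ : Measure X} {T : X → X} (hT : MeasurePreserving T μ μ)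
    {f f' g g' h h' : X → ℂ} (hf : f =ᵐ[μ] f') (hg : g =ᵐ[μ] g') (hh : h =ᵐ[μ] h') :
    Converges μ T f g h → Converges μ T f' g' h' := by
  intro hc
  have h1 : ∀ {k k' : X → ℂ}, k =ᵐ[μ] k' → ∀ᵐ x ∂μ, ∀ n : ℕ, k (T^[n] x) = k' (T^[n] x) := by
    intro k k' hk
    rw [ae_all_iff]
    intro n
    exact (hT.iterate n).quasiMeasurePreserving.ae hk
  filter_upwards [hc, h1 hf, h1 hg, h1 hh] with x hx hx1 hx2 hx3
  obtain ⟨L, hL⟩ := hx
  refine ⟨L, hL.congr fun N => ?_⟩
  congr 1
  exact sum_congr rfl fun n _ => by rw [hx1, hx2, hx3]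

/-- the comparison for one triple of functions -/
lemma compare {X : Type u} [MeasurableSpace X] (μ : Measure X) [IsProbabilityMeasure μ] {S : ℝ → X → X}
    (hS : IsFlow μ S) {f g h : X → ℂ} (hf : Linf μ f) (hg : Linf μ g) (hh : Linf μ h) :
    ∃ D : Set ℝ, Tiny D ∧ ∀ a : ℝ, 0 < a → a ∉ D → (Converges μ (S a) f g h ↔ ConvergesCont μ S f g h) := by
  have hS' := flow_of hS
  have hτ : ∀ j : Fin 3, Pool.Agent.Y957.MC.IsFlow μ (fun t => S (((j : ℕ) + 1 : ℝ) * t)) := fun j =>
    Pool.Agent.Y256.MC.isFlow_mul hS' _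
  have hFm : ∀ j : Fin 3, AEStronglyMeasurable ((![f, g, h] : Fin 3 → X → ℂ) j) μ := by
    intro j
    fin_cases j
    · exact hf.1
    · exact hg.1
    · exact hh.1
  have hFb : ∀ j : Fin 3, ∃ C' : ℝ, ∀ᵐ p ∂μ, ‖(![f, g, h] : Fin 3 → X → ℂ) j p‖ ≤ C' := by
    intro j
    fin_cases j
    · exact hf.2
    · exact hg.2
    · exact hh.2
  have hB : Pool.Agent.Y957.MC.Bes (fun _ => 1) := fun ε hε =>
    ⟨{0}, fun _ => 1, Eventually.of_forall fun N => by simp [hε.le]⟩
  have hmean : Tendsto (fun N : ℕ => (1 / (N : ℂ)) * ∑ n ∈ Icc 1 N, (fun _ : ℕ => (1 : ℂ)) n) atTop (nhds 1) := by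
    refine tendsto_const_nhds.congr' ?_
    filter_upwards [eventually_gt_atTop 0] with N hN
    have hN' : (N : ℂ) ≠ 0 := by exact_mod_cast hN.ne'
    simp [hN']
  refine ⟨_, Tiny.of (fun q hq => Pool.Agent.U587.ET.bes_gnull (μ := μ) hq hB hmean hτ hFm hFb) le_rfl, ?_⟩
  intro a ha0 haD
  simp only [Set.mem_ofPred_eq, not_and, not_not] at haD
  have h1 := Pool.Agent.U587.ET.conv_iff (B := fun _ => 1) (b := 1) one_ne_zero hτ hFm hFb ha0 (haD ha0)
  have hprod : ∀ (p : X) (v : ℝ), ∏ j : Fin 3, (![f, g, h] : Fin 3 → X → ℂ) j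
      ((fun t => S (((j : ℕ) + 1 : ℝ) * t)) v p) = f (S v p) * g (S (2 * v) p) * h (S (3 * v) p) := by
    intro p v
    rw [Fin.prod_univ_three]
    have a0 : ((((0 : Fin 3) : ℕ) : ℝ) + 1) * v = v := by simp
    have a1 : ((((1 : Fin 3) : ℕ) : ℝ) + 1) * v = 2 * v := by
      have : (((1 : Fin 3) : ℕ) : ℝ) = 1 := by norm_num
      rw [this]
      ring
    have a2 : ((((2 : Fin 3) : ℕ) : ℝ) + 1) * v = 3 * v := by
      have : (((2 : Fin 3) : ℕ) : ℝ) = 2 := by norm_num
      rw [this]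
      ring
    beta_reduce
    rw [a0, a1, a2]
    rfl
  have h2 : ∀ᵐ p ∂μ, ∀ L : ℂ, Tendsto (fun N : ℕ => (1 / (N : ℂ)) * ∑ n ∈ Icc 1 N,
      f ((S a)^[n] p) * g ((S a)^[2 * n] p) * h ((S a)^[3 * n] p)) atTop (nhds L) ↔
      Tendsto (fun V : ℝ => (1 / (V : ℂ)) * ∫ v in (0 : ℝ)..V,
        f (S v p) * g (S (2 * v) p) * h (S (3 * v) p)) atTop (nhds L) := by
    filter_upwards [h1] with p hp L
    have e1 : (fun N : ℕ => (1 / (N : ℂ)) * ∑ n ∈ Icc 1 N,
        f ((S a)^[n] p) * g ((S a)^[2 * n] p) * h ((S a)^[3 * n] p)) = fun N : ℕ => (1 / (N : ℂ)) * ∑ n ∈ Icc 1 N,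
        (fun _ : ℕ => (1 : ℂ)) n * ∏ j : Fin 3, (![f, g, h] : Fin 3 → X → ℂ) j
          ((fun t => S (((j : ℕ) + 1 : ℝ) * t)) (a * n) p) := by
      funext N
      congr 1
      refine sum_congr rfl fun n _ => ?_
      rw [one_mul, hprod]
      have hit := fun k : ℕ => Pool.Agent.U587.ET.iter_flow hS.zero hS.add a k p
      rw [hit, hit, hit]
      have b2 : a * ((2 * n : ℕ) : ℝ) = 2 * (a * n) := by push_cast; ring
      have b3 : a * ((3 * n : ℕ) : ℝ) = 3 * (a * n) := by push_cast; ring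
      rw [b2, b3]
    have e2 : (fun V : ℝ => (1 / (V : ℂ)) * ∫ v in (0 : ℝ)..V,
        f (S v p) * g (S (2 * v) p) * h (S (3 * v) p)) = fun V : ℝ => (1 / (V : ℂ)) * ∫ v in (0 : ℝ)..V,
        ∏ j : Fin 3, (![f, g, h] : Fin 3 → X → ℂ) j ((fun t => S (((j : ℕ) + 1 : ℝ) * t)) v p) := by
      funext V
      congr 1
      exact intervalIntegral.integral_congr fun v _ => (hprod p v).symm
    rw [e1, e2]
    have h3 := hp L
    rw [one_mul] at h3
    exact h3
  constructor
  · intro hc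
    filter_upwards [hc, h2] with p hp hp2
    obtain ⟨L, hL⟩ := hp
    exact ⟨L, (hp2 L).1 hL⟩
  · intro hc
    filter_upwards [hc, h2] with p hp hp2
    obtain ⟨L, hL⟩ := hp
    exact ⟨L, (hp2 L).2 hL⟩

/-- the amplification -/
lemma amplify {X : Type u} [MeasurableSpace X] (μ : Measure X) [IsProbabilityMeasure μ] {T : X ≃ᵐ X}
    (hT : MeasurePreserving T μ μ) {f g h : X → ℂ} (hf : Linf μ f) (hg : Linf μ g) (hh : Linf μ h)
    (hbad : ¬ Converges μ T f g h) : ∃ (ν : Measure (ℝ × X)) (S : ℝ → ℝ × X → ℝ × X) (F G H : ℝ × X → ℂ),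
      IsProbabilityMeasure ν ∧ IsFlow ν S ∧ Linf ν F ∧ Linf ν G ∧ Linf ν H ∧
      Tiny {a : ℝ | 0 < a ∧ Converges ν (S a) F G H} ∧ ¬ ConvergesCont ν S F G H := by
  obtain ⟨f', hf'm, ⟨Cf, hCf⟩, hff'⟩ := Pool.Agent.Y957.MC.exists_version hf.1 hf.2
  obtain ⟨g', hg'm, ⟨Cg, hCg⟩, hgg'⟩ := Pool.Agent.Y957.MC.exists_version hg.1 hg.2
  obtain ⟨h', hh'm, ⟨Ch, hCh⟩, hhh'⟩ := Pool.Agent.Y957.MC.exists_version hh.1 hh.2
  have hbad' : ¬ Converges μ T f' g' h' := fun hc => hbad (conv_congr hT hff'.symm hgg'.symm hhh'.symm hc)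
  obtain ⟨C, hC⟩ : ∃ C, C = |Cf| + |Cg| + |Ch| := ⟨_, rfl⟩
  have hC0 : 0 ≤ C := by rw [hC]; positivity
  have b1 : ∀ x, ‖f' x‖ ≤ C := fun x => by
    have := hCf x
    have := le_abs_self Cf
    have := abs_nonneg Cg
    have := abs_nonneg Ch
    linarith
  have b2 : ∀ x, ‖g' x‖ ≤ C := fun x => by
    have := hCg x
    have := le_abs_self Cg
    have := abs_nonneg Cf
    have := abs_nonneg Ch
    linarith
  have b3 : ∀ x, ‖h' x‖ ≤ C := fun x => by
    have := hCh x
    have := le_abs_self Ch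
    have := abs_nonneg Cf
    have := abs_nonneg Cg
    linarith
  have hF : Linf (Pool.Agent.U587.ET.lam.prod μ) (Pool.Agent.U587.ET.win f') :=
    ⟨(Pool.Agent.U587.ET.win_meas hf'm).aestronglyMeasurable, C,
      ae_of_all _ (Pool.Agent.U587.ET.win_bd hC0 b1)⟩
  have hG : Linf (Pool.Agent.U587.ET.lam.prod μ) (Pool.Agent.U587.ET.lift2 g') :=
    ⟨(Pool.Agent.U587.ET.lift2_meas hg'm).aestronglyMeasurable, C, ae_of_all _ fun p => b2 _⟩
  have hH : Linf (Pool.Agent.U587.ET.lam.prod μ) (Pool.Agent.U587.ET.lift2 h') :=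
    ⟨(Pool.Agent.U587.ET.lift2_meas hh'm).aestronglyMeasurable, C, ae_of_all _ fun p => b3 _⟩
  have hfl : IsFlow (Pool.Agent.U587.ET.lam.prod μ) (Pool.Agent.U587.ET.susp T) :=
    of_flow (Pool.Agent.U587.ET.susp_flow hT)
  have htiny : Tiny {a : ℝ | 0 < a ∧ Converges (Pool.Agent.U587.ET.lam.prod μ) (Pool.Agent.U587.ET.susp T a)
      (Pool.Agent.U587.ET.win f') (Pool.Agent.U587.ET.lift2 g') (Pool.Agent.U587.ET.lift2 h')} :=
    Tiny.of (fun q hq => Pool.Agent.U587.ET.amp hT hf'm hg'm hh'm hC0 b1 b2 b3 hbad' hq) le_rfl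
  refine ⟨Pool.Agent.U587.ET.lam.prod μ, Pool.Agent.U587.ET.susp T, Pool.Agent.U587.ET.win f',
    Pool.Agent.U587.ET.lift2 g', Pool.Agent.U587.ET.lift2 h', inferInstance, hfl, hF, hG, hH, htiny, ?_⟩
  intro hcont
  obtain ⟨D, hD, hD2⟩ := compare (Pool.Agent.U587.ET.lam.prod μ) hfl hF hG hH
  have hsub : Set.Ioi (0 : ℝ) ⊆ {a : ℝ | 0 < a ∧ Converges (Pool.Agent.U587.ET.lam.prod μ)
      (Pool.Agent.U587.ET.susp T a) (Pool.Agent.U587.ET.win f') (Pool.Agent.U587.ET.lift2 g')
      (Pool.Agent.U587.ET.lift2 h')} ∪ D := by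
    intro a ha
    by_cases haD : a ∈ D
    · exact Or.inr haD
    · exact Or.inl ⟨ha, (hD2 a ha haD).2 hcont⟩
  have h1 := dimH_mono hsub
  rw [dimH_union, htiny.2, hD.2, dimH_Ioi] at h1
  simp at h1

theorem result :
    (∀ (X : Type u) [MeasurableSpace X] (μ : Measure X) [IsProbabilityMeasure μ] (T : X ≃ᵐ X),
      MeasurePreserving T μ μ → ∀ f g h : X → ℂ, Linf μ f → Linf μ g → Linf μ h → ¬ Converges μ T f g h →
      ∃ (ν : Measure (ℝ × X)) (S : ℝ → ℝ × X → ℝ × X) (F G H : ℝ × X → ℂ),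
        IsProbabilityMeasure ν ∧ IsFlow ν S ∧ Linf ν F ∧ Linf ν G ∧ Linf ν H ∧
        Tiny {a : ℝ | 0 < a ∧ Converges ν (S a) F G H} ∧ ¬ ConvergesCont ν S F G H) ∧
    [Q1.{u},
      AllFlows.{u} fun _ _ μ S f g h => Tiny {a : ℝ | 0 < a ∧ ¬ Converges μ (S a) f g h},
      AllFlows.{u} fun _ _ μ S f g h => ¬ Tiny {a : ℝ | 0 < a ∧ Converges μ (S a) f g h},
      AllFlows.{u} fun _ _ μ S f g h => ConvergesCont μ S f g h].TFAE := by
  refine ⟨fun X _ μ _ T hT f g h hf hg hh hbad => amplify μ hT hf hg hh hbad, ?_⟩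
  have hIoi : ∀ D D' : Set ℝ, Tiny D → Tiny D' → ¬ Set.Ioi (0 : ℝ) ⊆ D ∪ D' := by
    intro D D' hD hD' hsub
    have h1 := dimH_mono hsub
    rw [dimH_union, hD.2, hD'.2, dimH_Ioi] at h1
    simp at h1
  have h12 : Q1.{u} → AllFlows.{u} fun _ _ μ S f g h => Tiny {a : ℝ | 0 < a ∧ ¬ Converges μ (S a) f g h} := by
    intro hQ X _ μ _ S hS f g h hf hg hh
    have hempty : {a : ℝ | 0 < a ∧ ¬ Converges μ (S a) f g h} ⊆ (∅ : Set ℝ) := by
      rintro a ⟨ha0, ha⟩
      apply ha
      have hm : ∀ t, Measurable (S t) := fun t => (hS.mp t).measurable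
      let T : X ≃ᵐ X :=
        { toFun := S a
          invFun := S (-a)
          left_inv := fun x => by rw [← hS.add, neg_add_cancel, hS.zero]
          right_inv := fun x => by rw [← hS.add, add_neg_cancel, hS.zero]
          measurable_toFun := hm a
          measurable_invFun := hm (-a) }
      exact hQ X μ T (hS.mp a) f g h hf hg hh
    exact Tiny.of (fun q hq => Pool.Agent.U587.ET.gnull_empty (by linarith)) hempty
  have h23 : (AllFlows.{u} fun _ _ μ S f g h => Tiny {a : ℝ | 0 < a ∧ ¬ Converges μ (S a) f g h}) →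
      AllFlows.{u} fun _ _ μ S f g h => ¬ Tiny {a : ℝ | 0 < a ∧ Converges μ (S a) f g h} := by
    intro h2 X _ μ _ S hS f g h hf hg hh hcon
    refine hIoi _ _ (h2 X μ S hS f g h hf hg hh) hcon fun a ha => ?_
    by_cases hc : Converges μ (S a) f g h
    · exact Or.inr ⟨ha, hc⟩
    · exact Or.inl ⟨ha, hc⟩
  have h34 : (AllFlows.{u} fun _ _ μ S f g h => ¬ Tiny {a : ℝ | 0 < a ∧ Converges μ (S a) f g h}) →
      AllFlows.{u} fun _ _ μ S f g h => ConvergesCont μ S f g h := by
    intro h3 X _ μ _ S hS f g h hf hg hh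
    by_contra hcon
    obtain ⟨D, hD, hD2⟩ := compare μ hS hf hg hh
    apply h3 X μ S hS f g h hf hg hh
    have hsub : {a : ℝ | 0 < a ∧ Converges μ (S a) f g h} ⊆ D := by
      rintro a ⟨ha0, ha⟩
      by_contra haD
      exact hcon ((hD2 a ha0 haD).1 ha)
    refine ⟨fun q hq => ?_, ?_⟩
    · intro ε hε
      obtain ⟨c, r, h1, h2, h3⟩ := hD.1 q hq ε hε
      exact ⟨c, r, h1, hsub.trans h2, h3⟩
    · refine le_antisymm ?_ (zero_le)
      rw [← hD.2]
      exact dimH_mono hsub
  have h41 : (AllFlows.{u} fun _ _ μ S f g h => ConvergesCont μ S f g h) → Q1.{u} := by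
    intro h4 X _ μ _ T hT f g h hf hg hh
    by_contra hbad
    obtain ⟨ν, S, F, G, H, hν, hS, hF, hG, hH, -, hcont⟩ := amplify μ hT hf hg hh hbad
    exact hcont (h4 (ℝ × X) ν S hS F G H hF hG hH)
  tfae_have 1 → 2 := h12
  tfae_have 2 → 3 := h23
  tfae_have 3 → 4 := h34
  tfae_have 4 → 1 := h41
  tfae_finish

end Pool.Agent.Results.MP_9721b5_an.AmplificationByFlows
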