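import Pool.Agent.U587.ET.Core5

set_option autoImplicit false

/-!
# Cubic averages at the times of a flow: the exceptional times have dimension zero, one set for all functions

For a measurable measure preserving flow `S` on a probability space `(X, μ)` and `T = S_a` the averages of the problem
are `(1/N) ∑_{n ≤ N} f(S_{an} x) g(S_{2an} x) h(S_{3an} x)`. More generally let `τ_1, ..., τ_m` be flows (no relation
between them is assumed, and they may be equal to each other up to the speed), `f_1, ..., f_m` in `L^∞`, and `B` a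
Besicovitch almost periodic sequence of weights with mean `b` (for instance `B = 1`, periodic `B`, or `B(n) = e(α n)`).

`Tiny D`: for every `q > 3` the Hausdorff measure of `D` for the gauge `(log (1/r))^(-q)` is zero, and (this follows)
the Hausdorff dimension of `D` is zero.

1. The set of ALL times `a > 0` for which the difference of `(1/N) ∑ B(n) ∏ f_j (τ_j(a n) x)` and of
   `b (1/(a N)) ∫_0^(a N) ∏ f_j (τ_j(v) x) dv` does not tend to zero for almost every `x` is tiny.
2. If `μ` is separable (for example if `X` is a standard Borel space), then for countably many flows and countably many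
   weights there is ONE tiny set `D` such that for every `a > 0` not in `D`, all finite products and ALL functions in
   `L^∞` the difference in 1 tends to zero for almost every `x`, and for almost every `x` and all `L` the averages with
   `B = 1` at the time `a` converge to `L` if and only if the continuous averages, which do not depend on `a`, do.
3. Zero-one law for the assertion of the problem, if `μ` is separable: for every flow `S` the set of the `a > 0` such
   that the assertion of the problem (almost everywhere convergence of the averages of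
   `f(T^n x) g(T^(2n) x) h(T^(3n) x)` for all `f, g, h` in `L^∞`) holds for `T = S_a` is tiny, or the set of the
   `a > 0` for which it fails is tiny.

Proof. Parseval in the variable `log a` reduces the mean square over `a` in `[A, 2A]` of one block of the averages of a
bounded Lipschitz function to exponential sums with the phases `α n + κ log n`; the second derivative test and the
inequality of Kusmin and Landau give the bound `C (log N) / N` uniformly over all functions with a given Lipschitz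
constant (`Pool.Agent.U587.ET.blk`). The averages are Lipschitz in `a` with a constant of size `N`: on the scale `1/N`
only a polylogarithmic number of intervals carries a large part of the integral over `x` and `a`
(`Pool.Agent.U587.ET.cov`). The functions are approximated in `L¹` by functions which are smooth along the flows; the
error at EVERY time `a` is controlled by the pointwise ergodic theorem for `τ_j(a)` (`Pool.Agent.U587.ET.transfer`).
-/

namespace Pool.Agent.Results.MP_9721b5_an.ExceptionalTimes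

open MeasureTheory Filter Finset

universe u

/-- a measurable measure preserving flow -/
structure IsFlow {X : Type u} [MeasurableSpace X] (μ : Measure X) (τ : ℝ → X → X) : Prop where
  meas : Measurable (fun p : ℝ × X => τ p.1 p.2)
  zero : ∀ x, τ 0 x = x
  add : ∀ s t x, τ (s + t) x = τ s (τ t x)
  mp : ∀ t, MeasurePreserving (τ t) μ μ

/-- Besicovitch almost periodic sequences: trigonometric polynomials approximate them in mean -/
def Besicovitch (B : ℕ → ℂ) : Prop := ∀ ε : ℝ, 0 < ε → ∃ (s : Finset ℝ) (c : ℝ → ℂ), ∀ᶠ N : ℕ in atTop,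
  (1 / (N : ℝ)) * ∑ n ∈ Icc 1 N,
    ‖B n - ∑ α ∈ s, c α * Complex.exp (((2 * Real.pi * α * n : ℝ) : ℂ) * Complex.I)‖ ≤ ε

/-- the sequence `B` has the mean `b` -/
def HasMean (B : ℕ → ℂ) (b : ℂ) : Prop :=
  Tendsto (fun N : ℕ => (1 / (N : ℂ)) * ∑ n ∈ Icc 1 N, B n) atTop (nhds b)

/-- Hausdorff measure zero for the gauge `(log (1 / r))^(-q)`: coverings by intervals of lengths `r i ≤ 1 / 2` with
`∑ (log (1 / r i))^(-q) ≤ ε`. (Points, `r i = 0`, cost nothing: in Lean `log (1 / 0) = 0` and `0 ^ (-q) = 0`.) -/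
def GaugeNull (q : ℝ) (D : Set ℝ) : Prop := ∀ ε : ℝ, 0 < ε → ∃ c r : ℕ → ℝ, (∀ i, 0 ≤ r i ∧ r i ≤ 1 / 2) ∧
  D ⊆ ⋃ i, Set.Icc (c i) (c i + r i) ∧ Summable (fun i => (Real.log (1 / r i)) ^ (-q)) ∧
  ∑' i, (Real.log (1 / r i)) ^ (-q) ≤ ε

/-- gauge null for all exponents `q > 3`, and of Hausdorff dimension zero -/
def Tiny (D : Set ℝ) : Prop := (∀ q : ℝ, 3 < q → GaugeNull q D) ∧ dimH D = 0

/-- measurable and essentially bounded -/
def Linf {X : Type u} [MeasurableSpace X] (μ : Measure X) (f : X → ℂ) : Prop :=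
  AEStronglyMeasurable f μ ∧ ∃ C : ℝ, ∀ᵐ x ∂μ, ‖f x‖ ≤ C

/-- the averages with weights at the time `a` -/
noncomputable def discAvg {X : Type u} {m : ℕ} (B : ℕ → ℂ) (τ : Fin m → ℝ → X → X) (f : Fin m → X → ℂ)
    (a : ℝ) (x : X) (N : ℕ) : ℂ :=
  (1 / (N : ℂ)) * ∑ n ∈ Icc 1 N, B n * ∏ j, f j (τ j (a * n) x)

/-- the continuous averages -/
noncomputable def contAvg {X : Type u} {m : ℕ} (τ : Fin m → ℝ → X → X) (f : Fin m → X → ℂ)
    (x : X) (V : ℝ) : ℂ :=
  (1 / (V : ℂ)) * ∫ v in (0 : ℝ)..V, ∏ j, f j (τ j v x)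

/-- the assertion of the problem for the map `T` -/
def Cubic {X : Type u} [MeasurableSpace X] (μ : Measure X) (T : X → X) : Prop :=
  ∀ f g h : X → ℂ, Linf μ f → Linf μ g → Linf μ h → ∀ᵐ x ∂μ, ∃ L : ℂ,
    Tendsto (fun N : ℕ => (1 / (N : ℂ)) * ∑ n ∈ Icc 1 N, f (T^[n] x) * g (T^[2 * n] x) * h (T^[3 * n] x))
      atTop (nhds L)

lemma Tiny.of {D D' : Set ℝ} (h : ∀ q : ℝ, 3 < q → Pool.Agent.U587.ET.GNull q D') (hD : D ⊆ D') : Tiny D := by
  refine ⟨fun q hq => Pool.Agent.U587.ET.gnull_real ((h q hq).mono hD), ?_⟩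
  exact Pool.Agent.U587.ET.gnull_dimH (q := 4) (by norm_num) ((h 4 (by norm_num)).mono hD)

lemma flow_of {X : Type u} [MeasurableSpace X] {μ : Measure X} {τ : ℝ → X → X} (h : IsFlow μ τ) :
    Pool.Agent.Y957.MC.IsFlow μ τ := ⟨h.meas, h.zero, h.add, h.mp⟩

lemma cmp_eq {X : Type u} {m : ℕ} (B : ℕ → ℂ) (b : ℂ) (τ : Fin m → ℝ → X → X) (f : Fin m → X → ℂ) (a : ℝ) (x : X)
    (N : ℕ) : Pool.Agent.U587.ET.cmp B b (fun v => ∏ j, f j (τ j v x)) a N =
      discAvg B τ f a x N - b * contAvg τ f x (a * N) := rfl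

lemma bes_one : Besicovitch (fun _ => 1) := fun ε hε =>
  ⟨{0}, fun _ => 1, Eventually.of_forall fun N => by simp [hε.le]⟩

lemma mean_one : HasMean (fun _ => 1) 1 := by
  unfold HasMean
  refine tendsto_const_nhds.congr' ?_
  filter_upwards [eventually_gt_atTop 0] with N hN
  have hN' : (N : ℂ) ≠ 0 := by exact_mod_cast hN.ne'
  simp [hN']

/-- part 2 -/
lemma uniform {X : Type u} [MeasurableSpace X] (μ : Measure X) [IsProbabilityMeasure μ] [IsSeparable μ]
    (ι : Type) [Countable ι] (τ : ι → ℝ → X → X) (B : ℕ → ℕ → ℂ) (b : ℕ → ℂ) (hτ : ∀ i, IsFlow μ (τ i))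
    (hB : ∀ k, Besicovitch (B k)) (hb : ∀ k, HasMean (B k) (b k)) :
    ∃ D : Set ℝ, Tiny D ∧ ∀ a : ℝ, 0 < a → a ∉ D → ∀ (m : ℕ) (σ : Fin m → ι) (f : Fin m → X → ℂ),
      (∀ j, Linf μ (f j)) →
      (∀ k, ∀ᵐ x ∂μ, Tendsto (fun N : ℕ => discAvg (B k) (fun j => τ (σ j)) f a x N -
          b k * contAvg (fun j => τ (σ j)) f x (a * N)) atTop (nhds 0)) ∧
      (∀ᵐ x ∂μ, ∀ L : ℂ, Tendsto (discAvg (fun _ => 1) (fun j => τ (σ j)) f a x) atTop (nhds L) ↔
        Tendsto (contAvg (fun j => τ (σ j)) f x) atTop (nhds L)) := by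
  obtain ⟨B', hB'⟩ : ∃ B' : ℕ → ℕ → ℂ, B' = fun k => if k = 0 then (fun _ => 1) else B (k - 1) := ⟨_, rfl⟩
  obtain ⟨b', hb'⟩ : ∃ b' : ℕ → ℂ, b' = fun k => if k = 0 then 1 else b (k - 1) := ⟨_, rfl⟩
  have h1 : ∀ k, Besicovitch (B' k) := by
    intro k
    rw [hB']
    beta_reduce
    split_ifs
    · exact bes_one
    · exact hB _
  have h2 : ∀ k, HasMean (B' k) (b' k) := by
    intro k
    rw [hB', hb']
    beta_reduce
    split_ifs
    · exact mean_one
    · exact hb _
  obtain ⟨D, hD1, hD2⟩ := Pool.Agent.U587.ET.uniform_bes (μ := μ) (fun i => flow_of (hτ i)) h1 h2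
  refine ⟨D, Tiny.of hD1 le_rfl, fun a ha0 haD m σ f hf => ⟨fun k => ?_, ?_⟩⟩
  · have h3 := hD2 a ha0 haD m σ f (fun j => (hf j).1) (fun j => (hf j).2) (k + 1)
    have e1 : B' (k + 1) = B k := by
      rw [hB']
      simp
    have e2 : b' (k + 1) = b k := by
      rw [hb']
      simp
    rw [e1, e2] at h3
    exact h3
  · have h3 := hD2 a ha0 haD m σ f (fun j => (hf j).1) (fun j => (hf j).2) 0
    have e1 : B' 0 = fun _ => 1 := by
      rw [hB']
      simp
    have e2 : b' 0 = 1 := by
      rw [hb']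
      simp
    rw [e1, e2] at h3
    have h4 := Pool.Agent.U587.ET.conv_iff (B := fun _ => 1) (b := 1) one_ne_zero (fun j => flow_of (hτ (σ j)))
      (fun j => (hf j).1) (fun j => (hf j).2) ha0 h3
    filter_upwards [h4] with x hx L
    have h5 := hx L
    rw [one_mul] at h5
    exact h5

theorem result {X : Type u} [MeasurableSpace X] (μ : Measure X) [IsProbabilityMeasure μ] :
    (∀ (m : ℕ) (τ : Fin m → ℝ → X → X) (f : Fin m → X → ℂ), (∀ j, IsFlow μ (τ j)) → (∀ j, Linf μ (f j)) →
      ∀ (B : ℕ → ℂ) (b : ℂ), Besicovitch B → HasMean B b →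
        Tiny {a : ℝ | 0 < a ∧ ¬ ∀ᵐ x ∂μ,
          Tendsto (fun N : ℕ => discAvg B τ f a x N - b * contAvg τ f x (a * N)) atTop (nhds 0)}) ∧
    (IsSeparable μ → ∀ (ι : Type) [Countable ι] (τ : ι → ℝ → X → X) (B : ℕ → ℕ → ℂ) (b : ℕ → ℂ),
      (∀ i, IsFlow μ (τ i)) → (∀ k, Besicovitch (B k)) → (∀ k, HasMean (B k) (b k)) →
      ∃ D : Set ℝ, Tiny D ∧ ∀ a : ℝ, 0 < a → a ∉ D → ∀ (m : ℕ) (σ : Fin m → ι) (f : Fin m → X → ℂ),
        (∀ j, Linf μ (f j)) →
        (∀ k, ∀ᵐ x ∂μ, Tendsto (fun N : ℕ => discAvg (B k) (fun j => τ (σ j)) f a x N -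
            b k * contAvg (fun j => τ (σ j)) f x (a * N)) atTop (nhds 0)) ∧
        (∀ᵐ x ∂μ, ∀ L : ℂ, Tendsto (discAvg (fun _ => 1) (fun j => τ (σ j)) f a x) atTop (nhds L) ↔
          Tendsto (contAvg (fun j => τ (σ j)) f x) atTop (nhds L))) ∧
    (IsSeparable μ → ∀ S : ℝ → X → X, IsFlow μ S →
      Tiny {a : ℝ | 0 < a ∧ ¬ Cubic μ (S a)} ∨ Tiny {a : ℝ | 0 < a ∧ Cubic μ (S a)}) := by
  refine ⟨?_, ?_, ?_⟩
  · intro m τ f hτ hf B b hB hb
    exact Tiny.of (fun q hq => Pool.Agent.U587.ET.bes_gnull (μ := μ) hq hB hb (fun j => flow_of (hτ j))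
      (fun j => (hf j).1) (fun j => (hf j).2)) le_rfl
  · intro hμ ι _ τ B b hτ hB hb
    exact uniform μ ι τ B b hτ hB hb
  · intro hμ S hS
    have hτ : ∀ i : Fin 3, IsFlow μ (fun t => S (((i : ℕ) + 1 : ℝ) * t)) := fun i =>
      { meas := hS.meas.comp ((measurable_fst.const_mul (((i : ℕ) + 1 : ℝ))).prodMk measurable_snd)
        zero := fun x => by rw [mul_zero]; exact hS.zero x
        add := fun s t x => by rw [mul_add]; exact hS.add _ _ x
        mp := fun t => hS.mp _ }
    obtain ⟨D, hD, hD2⟩ := uniform μ (Fin 3) (fun i t => S (((i : ℕ) + 1 : ℝ) * t)) (fun _ _ => 1) (fun _ => 1) hτ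
      (fun _ => bes_one) (fun _ => mean_one)
    -- the averages of the problem
    have key : ∀ a : ℝ, 0 < a → a ∉ D → ∀ f g h : X → ℂ, Linf μ f → Linf μ g → Linf μ h →
        ∀ᵐ x ∂μ, ∀ L : ℂ, Tendsto (fun N : ℕ => (1 / (N : ℂ)) * ∑ n ∈ Icc 1 N,
          f ((S a)^[n] x) * g ((S a)^[2 * n] x) * h ((S a)^[3 * n] x)) atTop (nhds L) ↔
        Tendsto (contAvg (fun (j : Fin 3) t => S (((j : ℕ) + 1 : ℝ) * t)) ![f, g, h] x) atTop (nhds L) := by
      intro a ha0 haD f g h hf hg hh
      have h1 := (hD2 a ha0 haD 3 id ![f, g, h] (fun j => by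
        fin_cases j
        · exact hf
        · exact hg
        · exact hh)).2
      filter_upwards [h1] with x hx L
      have hxL : Tendsto (discAvg (fun _ => 1) (fun (j : Fin 3) t => S (((j : ℕ) + 1 : ℝ) * t)) ![f, g, h] a x)
          atTop (nhds L) ↔
          Tendsto (contAvg (fun (j : Fin 3) t => S (((j : ℕ) + 1 : ℝ) * t)) ![f, g, h] x) atTop (nhds L) := hx L
      rw [← hxL]
      have e1 : (fun N : ℕ => (1 / (N : ℂ)) * ∑ n ∈ Icc 1 N,
          f ((S a)^[n] x) * g ((S a)^[2 * n] x) * h ((S a)^[3 * n] x)) =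
          discAvg (fun _ => 1) (fun (j : Fin 3) t => S (((j : ℕ) + 1 : ℝ) * t)) ![f, g, h] a x := by
        funext N
        unfold discAvg
        congr 1
        refine Finset.sum_congr rfl fun n _ => ?_
        rw [Fin.prod_univ_three, one_mul]
        have hit := fun k : ℕ => Pool.Agent.U587.ET.iter_flow hS.zero hS.add a k x
        have a0 : ((((0 : Fin 3) : ℕ) : ℝ) + 1) * (a * n) = a * (n : ℝ) := by simp
        have a1 : ((((1 : Fin 3) : ℕ) : ℝ) + 1) * (a * n) = a * ((2 * n : ℕ) : ℝ) := by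
          have : (((1 : Fin 3) : ℕ) : ℝ) = 1 := by norm_num
          rw [this]
          push_cast
          ring
        have a2 : ((((2 : Fin 3) : ℕ) : ℝ) + 1) * (a * n) = a * ((3 * n : ℕ) : ℝ) := by
          have : (((2 : Fin 3) : ℕ) : ℝ) = 2 := by norm_num
          rw [this]
          push_cast
          ring
        rw [hit, hit, hit]
        beta_reduce
        rw [a0, a1, a2]
        rfl
      rw [e1]
    by_cases hP : ∀ f g h : X → ℂ, Linf μ f → Linf μ g → Linf μ h → ∀ᵐ x ∂μ, ∃ L : ℂ,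
        Tendsto (contAvg (fun (j : Fin 3) t => S (((j : ℕ) + 1 : ℝ) * t)) ![f, g, h] x) atTop (nhds L)
    · left
      refine ⟨fun q hq => ?_, ?_⟩
      · intro ε hε
        obtain ⟨c, r, h1, h2, h3⟩ := hD.1 q hq ε hε
        refine ⟨c, r, h1, Set.Subset.trans ?_ h2, h3⟩
        rintro a ⟨ha0, ha⟩
        by_contra haD
        apply ha
        intro f g h hf hg hh
        filter_upwards [key a ha0 haD f g h hf hg hh, hP f g h hf hg hh] with x hx hL
        obtain ⟨L, hL⟩ := hL
        exact ⟨L, (hx L).2 hL⟩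
      · refine le_antisymm ?_ (zero_le)
        rw [← hD.2]
        refine dimH_mono ?_
        rintro a ⟨ha0, ha⟩
        by_contra haD
        apply ha
        intro f g h hf hg hh
        filter_upwards [key a ha0 haD f g h hf hg hh, hP f g h hf hg hh] with x hx hL
        obtain ⟨L, hL⟩ := hL
        exact ⟨L, (hx L).2 hL⟩
    · right
      have hsub : {a : ℝ | 0 < a ∧ Cubic μ (S a)} ⊆ D := by
        rintro a ⟨ha0, ha⟩
        by_contra haD
        apply hP
        intro f g h hf hg hh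
        filter_upwards [key a ha0 haD f g h hf hg hh, ha f g h hf hg hh] with x hx hL
        obtain ⟨L, hL⟩ := hL
        exact ⟨L, (hx L).1 hL⟩
      refine ⟨fun q hq => ?_, ?_⟩
      · intro ε hε
        obtain ⟨c, r, h1, h2, h3⟩ := hD.1 q hq ε hε
        exact ⟨c, r, h1, hsub.trans h2, h3⟩
      · refine le_antisymm ?_ (zero_le)
        rw [← hD.2]
        exact dimH_mono hsub

end Pool.Agent.Results.MP_9721b5_an.ExceptionalTimes
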