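import Pool.Agent.U587.ET.Amp
import Pool.Agent.U527.Et.Fix

set_option autoImplicit false

/-!
# Cubic averages along polynomials and the linear problem

`Conv P μ T f g h`: the averages `(1/N) ∑_{n ≤ N} f(T^(P(n)) x) g(T^(2P(n)) x) h(T^(3P(n)) x)` converge for almost every
`x`; `Cubic P`: this is true for every invertible measure preserving map `T` of a probability space and all `f, g, h` in
`L^∞`. `Cubic X` (that is, `P(n) = n`) is the assertion of the problem. `Pol d P`: `P` is an integer polynomial of degree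
in `[1, d]` with positive leading coefficient, and `bnd d = 1 - 1 / (d 2^(4 d + 6)) < 1`. `Good P μ S a`: for the map `S_a`
of the flow `S` the averages along `P` converge almost everywhere for all functions in `L^∞`.

1. If the averages of the problem diverge for one `T` and some `f, g, h`, then there is a flow `S` such that the set of
   the times `a > 0` with `Good P μ S a` for SOME `P` of degree in `[1, d]` has Hausdorff dimension at most `bnd d`. There
   are fixed functions `F, G, H` in `L^∞`, the same for all times and all `P`, whose averages along all `P` diverge at all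
   times but a set of dimension at most `bnd d`, by Bourgain's theorem for one function.
2. If for every flow the times `a > 0` with `Good P μ S a` for some `P` of degree in `[1, d]` (it may depend on the time)
   form a set of dimension larger than `bnd d`, then the assertion of the problem is true (no hypothesis).
3. Convergence along ANY one polynomial implies the assertion of the problem: `Cubic P → Cubic X` (no hypothesis).
4. By Bourgain's theorem for one function along `P`, the assertion of the problem is equivalent to: for every flow `S`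
   and all `f, g, h` the averages along `P` for `S_a` converge almost everywhere at all times `a > 0` outside of a set of
   dimension at most `bnd d`; and to: they do so at a set of times of dimension larger than `bnd d`.
5. By the same theorem, if `μ` is separable: for every flow there is a set `D` of dimension at most `bnd d` such that
   `Good P μ S a` is true for all times `a > 0` outside of `D` and all `P` of degree in `[1, d]`, or for none of them. So
   for a given flow the problems for `P(n) = n` and for all these `P` have the same answer, outside of `D`.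

So the linear problem and its polynomial versions are the same problem at the times of flows, outside of sets of
Hausdorff dimension less than one, and the problem for all maps along `P` is at least as hard as the linear one.

Proof. For a flow, fixed `f, g, h` and all times `a > 0` outside of a set of dimension at most `bnd d`, the averages along
`P` converge if and only if the continuous averages do (`Pool.Agent.U527.Et.main_fix`, `main`; for `P(n) = n` this is in
the hand-in `ExceptionalTimes`, with a smaller exceptional set). For a divergent map `T` the suspension flow has divergent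
continuous averages (`Pool.Agent.U587.ET.disc_of_cont`, the tool of the hand-in `AmplificationByFlows`). The one function
theorem, which is needed in the first step, is the special case `g = h = 1` of the hypotheses in 2 and 3.
-/

namespace Pool.Agent.Results.MP_9721b5_an.PolynomialCubicTimes

open MeasureTheory Filter Finset
open scoped ENNReal

universe u

/-- a measurable measure preserving flow -/
structure IsFlow {X : Type u} [MeasurableSpace X] (μ : Measure X) (τ : ℝ → X → X) : Prop where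
  meas : Measurable (fun p : ℝ × X => τ p.1 p.2)
  zero : ∀ x, τ 0 x = x
  add : ∀ s t x, τ (s + t) x = τ s (τ t x)
  mp : ∀ t, MeasurePreserving (τ t) μ μ

/-- measurable and essentially bounded -/
def Linf {X : Type u} [MeasurableSpace X] (μ : Measure X) (f : X → ℂ) : Prop :=
  AEStronglyMeasurable f μ ∧ ∃ C : ℝ, ∀ᵐ x ∂μ, ‖f x‖ ≤ C

/-- integer powers of an invertible map -/
def pw {X : Type u} [MeasurableSpace X] (T : X ≃ᵐ X) (k : ℤ) (x : X) : X := ((T.toEquiv : Equiv.Perm X) ^ k) x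

/-- almost everywhere convergence of the averages of `f(T^(P(n)) x) g(T^(2P(n)) x) h(T^(3P(n)) x)` -/
def Conv (P : Polynomial ℤ) {X : Type u} [MeasurableSpace X] (μ : Measure X) (T : X ≃ᵐ X) (f g h : X → ℂ) : Prop :=
  ∀ᵐ x ∂μ, ∃ L : ℂ, Tendsto (fun N : ℕ => (1 / (N : ℂ)) * ∑ n ∈ Icc 1 N,
    f (pw T (P.eval (n : ℤ)) x) * g (pw T (2 * P.eval (n : ℤ)) x) * h (pw T (3 * P.eval (n : ℤ)) x)) atTop (nhds L)

/-- the averages along `P` converge for all maps and all functions; `P = X` is the assertion of the problem -/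
def Cubic (P : Polynomial ℤ) : Prop := ∀ (X : Type u) [MeasurableSpace X] (μ : Measure X) [IsProbabilityMeasure μ]
  (T : X ≃ᵐ X), MeasurePreserving T μ μ → ∀ f g h : X → ℂ, Linf μ f → Linf μ g → Linf μ h → Conv P μ T f g h

/-- the pointwise ergodic theorem along `P` for one function in `L^∞` (Bourgain's theorem) -/
def OneFunction (P : Polynomial ℤ) : Prop := ∀ (X : Type u) [MeasurableSpace X] (μ : Measure X)
  [IsProbabilityMeasure μ] (T : X ≃ᵐ X), MeasurePreserving T μ μ → ∀ f : X → ℂ, Linf μ f → ∀ᵐ x ∂μ, ∃ L : ℂ,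
    Tendsto (fun N : ℕ => (1 / (N : ℂ)) * ∑ n ∈ Icc 1 N, f (pw T (P.eval (n : ℤ)) x)) atTop (nhds L)

/-- almost everywhere convergence of the averages along `P` for the map `S_a` of the flow `S`: its power with
exponent `k` is `S_(a k)` -/
def ConvAt (P : Polynomial ℤ) {X : Type u} [MeasurableSpace X] (μ : Measure X) (S : ℝ → X → X) (a : ℝ)
    (f g h : X → ℂ) : Prop :=
  ∀ᵐ x ∂μ, ∃ L : ℂ, Tendsto (fun N : ℕ => (1 / (N : ℂ)) * ∑ n ∈ Icc 1 N,
    f (S (a * ((P.eval (n : ℤ) : ℤ) : ℝ)) x) * g (S (2 * (a * ((P.eval (n : ℤ) : ℤ) : ℝ))) x) *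
      h (S (3 * (a * ((P.eval (n : ℤ) : ℤ) : ℝ))) x)) atTop (nhds L)

/-- the averages along `P` for the map `S_a` converge almost everywhere for all functions in `L^∞` -/
def Good (P : Polynomial ℤ) {X : Type u} [MeasurableSpace X] (μ : Measure X) (S : ℝ → X → X) (a : ℝ) : Prop :=
  ∀ f g h : X → ℂ, Linf μ f → Linf μ g → Linf μ h → ConvAt P μ S a f g h

/-- degree in `[1, d]` and positive leading coefficient -/
def Pol (d : ℕ) (P : Polynomial ℤ) : Prop := 0 < P.natDegree ∧ P.natDegree ≤ d ∧ 0 < P.leadingCoeff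

/-- a dimension less than one (for `d ≥ 1`) -/
noncomputable def bnd (d : ℕ) : ℝ≥0∞ := ENNReal.ofReal (1 - 1 / (d * 2 ^ (4 * d + 6) : ℝ))

/-- a statement about all flows on probability spaces and all triples of functions in `L^∞` -/
def AllFlows (Q : ∀ (X : Type u) [MeasurableSpace X], Measure X → (ℝ → X → X) → (X → ℂ) → (X → ℂ) → (X → ℂ) →
    Prop) : Prop :=
  ∀ (X : Type u) [MeasurableSpace X] (μ : Measure X) [IsProbabilityMeasure μ] (S : ℝ → X → X), IsFlow μ S →
    ∀ f g h : X → ℂ, Linf μ f → Linf μ g → Linf μ h → Q X μ S f g h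

/-- almost everywhere convergence of the continuous averages -/
def ConvCont {X : Type u} [MeasurableSpace X] (μ : Measure X) (S : ℝ → X → X) (f g h : X → ℂ) : Prop :=
  ∀ᵐ x ∂μ, ∃ L : ℂ, Tendsto (fun V : ℝ => (1 / (V : ℂ)) * ∫ v in (0 : ℝ)..V,
    f (S v x) * g (S (2 * v) x) * h (S (3 * v) x)) atTop (nhds L)

/-- the speeds `1, 2, 3` -/
def spd {X : Type u} (S : ℝ → X → X) (j : Fin 3) (t : ℝ) : X → X := S (((j : ℕ) + 1 : ℝ) * t)

lemma flow_of {X : Type u} [MeasurableSpace X] {μ : Measure X} {τ : ℝ → X → X} (h : IsFlow μ τ) :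
    Pool.Agent.Y957.MC.IsFlow μ τ := ⟨h.meas, h.zero, h.add, h.mp⟩

lemma of_flow {X : Type u} [MeasurableSpace X] {μ : Measure X} {τ : ℝ → X → X}
    (h : Pool.Agent.Y957.MC.IsFlow μ τ) : IsFlow μ τ := ⟨h.meas, h.zero, h.add, h.mp⟩

lemma bnd_eq (d : ℕ) : Pool.Agent.U527.Et.dm d = bnd d := by
  unfold Pool.Agent.U527.Et.dm bnd
  congr 2
  push_cast
  rfl

lemma bnd_lt {d : ℕ} (hd : 0 < d) : bnd d < 1 := by
  unfold bnd
  rw [← ENNReal.ofReal_one]
  refine (ENNReal.ofReal_lt_ofReal_iff one_pos).2 ?_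
  have hd' : (0 : ℝ) < d := by exact_mod_cast hd
  have : (0 : ℝ) < 1 / (d * 2 ^ (4 * d + 6) : ℝ) := by positivity
  linarith

lemma dimH_Ioi : dimH (Set.Ioi (0 : ℝ)) = 1 := by
  have h := Real.dimH_of_nonempty_interior (E := ℝ) (s := Set.Ioi (0 : ℝ)) (by
    rw [interior_Ioi]
    exact ⟨1, by norm_num⟩)
  rw [h]
  simp

/-- a time map -/
def tm {X : Type u} [MeasurableSpace X] {μ : Measure X} {S : ℝ → X → X} (hS : IsFlow μ S) (a : ℝ) : X ≃ᵐ X :=
  { toFun := S a
    invFun := S (-a)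
    left_inv := fun x => by rw [← hS.add, neg_add_cancel, hS.zero]
    right_inv := fun x => by rw [← hS.add, add_neg_cancel, hS.zero]
    measurable_toFun := (hS.mp a).measurable
    measurable_invFun := (hS.mp (-a)).measurable }

lemma pw_nat {X : Type u} [MeasurableSpace X] (T : X ≃ᵐ X) (n : ℕ) (x : X) : pw T (n : ℤ) x = T^[n] x := by
  unfold pw
  rw [zpow_natCast, ← Equiv.Perm.iterate_eq_pow]
  rfl

lemma pw_tm {X : Type u} [MeasurableSpace X] {μ : Measure X} {S : ℝ → X → X} (hS : IsFlow μ S) (a : ℝ) (k : ℤ)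
    (x : X) : pw (tm hS a) k x = S (a * k) x := by
  have h1 : ∀ (n : ℕ) (y : X), ((((tm hS a).toEquiv : Equiv.Perm X) ^ n : Equiv.Perm X)) y = S (a * n) y := by
    intro n y
    rw [← Equiv.Perm.iterate_eq_pow]
    exact Pool.Agent.U587.ET.iter_flow hS.zero hS.add a n y
  unfold pw
  cases k with
  | ofNat n =>
    have := h1 n x
    simpa using this
  | negSucc n =>
    rw [zpow_negSucc, Equiv.Perm.inv_def, Equiv.symm_apply_eq, h1, ← hS.add]
    have : a * ((n + 1 : ℕ) : ℝ) + a * ((Int.negSucc n : ℤ) : ℝ) = 0 := by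
      rw [Int.cast_negSucc]
      push_cast
      ring
    rw [this, hS.zero]

lemma eval_real (P : Polynomial ℤ) (n : ℕ) : (P.map (Int.castRingHom ℝ)).eval (n : ℝ) =
    ((P.eval (n : ℤ) : ℤ) : ℝ) := by
  have h := Polynomial.eval_intCast_map (Int.castRingHom ℝ) P (n : ℤ)
  rw [Int.cast_natCast] at h
  exact h

lemma spd_flow {X : Type u} [MeasurableSpace X] {μ : Measure X} {S : ℝ → X → X} (hS : IsFlow μ S) (j : Fin 3) :
    Pool.Agent.Y957.MC.IsFlow μ (spd S j) := Pool.Agent.Y256.MC.isFlow_mul (flow_of hS) _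

lemma prod3 {X : Type u} (S : ℝ → X → X) (f g h : X → ℂ) (x : X) (v : ℝ) :
    ∏ j : Fin 3, (![f, g, h] : Fin 3 → X → ℂ) j (spd S j v x) = f (S v x) * g (S (2 * v) x) * h (S (3 * v) x) := by
  rw [Fin.prod_univ_three]
  unfold spd
  have a0 : ((((0 : Fin 3) : ℕ) : ℝ) + 1) * v = v := by simp
  have a1 : ((((1 : Fin 3) : ℕ) : ℝ) + 1) * v = 2 * v := by
    have : (((1 : Fin 3) : ℕ) : ℝ) = 1 := by norm_num
    rw [this]
    ring
  have a2 : ((((2 : Fin 3) : ℕ) : ℝ) + 1) * v = 3 * v := by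
    have : (((2 : Fin 3) : ℕ) : ℝ) = 2 := by norm_num
    rw [this]
    ring
  rw [a0, a1, a2]
  rfl

/-- the functions of the triple -/
lemma linf3 {X : Type u} [MeasurableSpace X] {μ : Measure X} {f g h : X → ℂ} (hf : Linf μ f) (hg : Linf μ g)
    (hh : Linf μ h) (j : Fin 3) : Linf μ ((![f, g, h] : Fin 3 → X → ℂ) j) := by
  fin_cases j
  · exact hf
  · exact hg
  · exact hh

lemma iff_of {X : Type u} [MeasurableSpace X] {μ : Measure X} {S : ℝ → X → X} {f g h : X → ℂ} {P : Polynomial ℤ}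
    {a : ℝ} (h2 : ∀ᵐ x ∂μ, ∀ L : ℂ,
      Tendsto (fun N : ℕ => Pool.Agent.U527.Et.di (P.map (Int.castRingHom ℝ))
        (fun v => ∏ j, (![f, g, h] : Fin 3 → X → ℂ) j (spd S j v x)) a N) atTop (nhds L) ↔
      Tendsto (fun V : ℝ => Pool.Agent.U527.Et.ci (fun v => ∏ j, (![f, g, h] : Fin 3 → X → ℂ) j (spd S j v x)) V) atTop
        (nhds L)) : ConvAt P μ S a f g h ↔ ConvCont μ S f g h := by
  unfold Pool.Agent.U527.Et.di Pool.Agent.U527.Et.ci at h2
  simp only [prod3, eval_real] at h2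
  constructor
  · intro hc
    filter_upwards [hc, h2] with x hx hx2
    obtain ⟨L, hL⟩ := hx
    exact ⟨L, (hx2 L).1 hL⟩
  · intro hc
    filter_upwards [hc, h2] with x hx hx2
    obtain ⟨L, hL⟩ := hx
    exact ⟨L, (hx2 L).2 hL⟩

lemma real_pol {P : Polynomial ℤ} {d : ℕ} (hP : Pol d P) : (P.map (Int.castRingHom ℝ)).natDegree = P.natDegree ∧
    0 < (P.map (Int.castRingHom ℝ)).leadingCoeff := by
  refine ⟨Polynomial.natDegree_map_eq_of_injective Int.cast_injective P, ?_⟩
  rw [Polynomial.leadingCoeff_map_of_injective Int.cast_injective]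
  have : (0 : ℝ) < ((P.leadingCoeff : ℤ) : ℝ) := by exact_mod_cast hP.2.2
  exact this

/-- the comparison with the continuous averages -/
lemma core {X : Type u} [MeasurableSpace X] {μ : Measure X} [IsProbabilityMeasure μ] {S : ℝ → X → X}
    (hS : IsFlow μ S) {f g h : X → ℂ} (hf : Linf μ f) (hg : Linf μ g) (hh : Linf μ h) {P : Polynomial ℤ} {d : ℕ}
    (hP : Pol d P) : ∃ D : Set ℝ, dimH D ≤ bnd d ∧ ∀ a : ℝ, 0 < a → a ∉ D →
      (∀ j, Pool.Agent.U587.DX.Sg μ (spd S j) (P.map (Int.castRingHom ℝ)) a) →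
      (ConvAt P μ S a f g h ↔ ConvCont μ S f g h) := by
  obtain ⟨hdeg, hlead⟩ := real_pol hP
  obtain ⟨D, hD, hDa⟩ := Pool.Agent.U527.Et.main_fix (μ := μ) (fun j => spd_flow hS j) (P.map (Int.castRingHom ℝ))
    (by rw [hdeg]; exact hP.1) hlead (f := ![f, g, h]) (fun j => (linf3 hf hg hh j).1) (fun j => (linf3 hf hg hh j).2)
  refine ⟨D, ?_, fun a ha0 haD hSg => iff_of (hDa a ha0 haD hSg)⟩
  rw [← bnd_eq]
  rw [hdeg] at hD
  exact hD.trans (Pool.Agent.U527.Et.dm_mono hP.2.1 hP.1)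

lemma re_lim {u : ℕ → ℝ} {L : ℂ} (h : Tendsto (fun N : ℕ => (1 / (N : ℂ)) * ∑ n ∈ Icc 1 N, ((u n : ℝ) : ℂ)) atTop
    (nhds L)) : Tendsto (fun N : ℕ => (1 / (N : ℝ)) * ∑ n ∈ Icc 1 N, u n) atTop (nhds L.re) := by
  refine ((Complex.continuous_re.tendsto L).comp h).congr fun N => ?_
  simp only [Function.comp]
  rw [show (1 / (N : ℂ)) * ∑ n ∈ Icc 1 N, ((u n : ℝ) : ℂ) = (((1 / (N : ℝ)) * ∑ n ∈ Icc 1 N, u n : ℝ) : ℂ) by
    push_cast; rfl, Complex.ofReal_re]

lemma linf_one {X : Type u} [MeasurableSpace X] {μ : Measure X} : Linf μ (fun _ => 1) :=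
  ⟨aestronglyMeasurable_const, 1, ae_of_all _ fun _ => by simp⟩

lemma linf_real {X : Type u} [MeasurableSpace X] {μ : Measure X} {k : X → ℝ} (hk : Measurable k)
    (hb : ∃ C : ℝ, ∀ x, |k x| ≤ C) : Linf μ (fun x => ((k x : ℝ) : ℂ)) := by
  obtain ⟨C, hC⟩ := hb
  exact ⟨(Complex.measurable_ofReal.comp hk).aestronglyMeasurable, C,
    ae_of_all _ fun x => by rw [Complex.norm_real]; exact hC x⟩

/-- the one function theorem from the cubic averages -/
lemma sg_of_conv {X : Type u} [MeasurableSpace X] {μ : Measure X} {S : ℝ → X → X} {P : Polynomial ℤ} {a : ℝ}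
    (hc : ∀ f g h : X → ℂ, Linf μ f → Linf μ g → Linf μ h → ConvAt P μ S a f g h) (j : Fin 3) :
    Pool.Agent.U587.DX.Sg μ (spd S j) (P.map (Int.castRingHom ℝ)) a := by
  intro k hk hkb
  have hK := linf_real (μ := μ) hk hkb
  have h1 := linf_one (μ := μ)
  simp only [eval_real]
  unfold spd
  fin_cases j
  · filter_upwards [hc _ _ _ hK h1 h1] with x hx
    obtain ⟨L, hL⟩ := hx
    refine ⟨L.re, re_lim (u := fun n => k (S ((((0 : ℕ) : ℝ) + 1) * (a * ((P.eval (n : ℤ) : ℤ) : ℝ))) x))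
      (hL.congr fun N => ?_)⟩
    congr 1
    refine sum_congr rfl fun n _ => ?_
    simp
  · filter_upwards [hc _ _ _ h1 hK h1] with x hx
    obtain ⟨L, hL⟩ := hx
    refine ⟨L.re, re_lim (u := fun n => k (S ((((1 : ℕ) : ℝ) + 1) * (a * ((P.eval (n : ℤ) : ℤ) : ℝ))) x))
      (hL.congr fun N => ?_)⟩
    congr 1
    refine sum_congr rfl fun n _ => ?_
    have : (((1 : ℕ) : ℝ) + 1) = 2 := by norm_num
    rw [this]
    simp
  · filter_upwards [hc _ _ _ h1 h1 hK] with x hx
    obtain ⟨L, hL⟩ := hx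
    refine ⟨L.re, re_lim (u := fun n => k (S ((((2 : ℕ) : ℝ) + 1) * (a * ((P.eval (n : ℤ) : ℤ) : ℝ))) x))
      (hL.congr fun N => ?_)⟩
    congr 1
    refine sum_congr rfl fun n _ => ?_
    have : (((2 : ℕ) : ℝ) + 1) = 3 := by norm_num
    rw [this]
    simp

/-- the one function theorem at all times -/
lemma sg_of_one {X : Type u} [MeasurableSpace X] {μ : Measure X} [IsProbabilityMeasure μ] {S : ℝ → X → X}
    (hS : IsFlow μ S) {P : Polynomial ℤ} (h1 : OneFunction.{u} P) (a : ℝ) (j : Fin 3) :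
    Pool.Agent.U587.DX.Sg μ (spd S j) (P.map (Int.castRingHom ℝ)) a := by
  intro k hk hkb
  have hK := linf_real (μ := μ) hk hkb
  filter_upwards [h1 X μ (tm hS (((j : ℕ) + 1 : ℝ) * a)) (hS.mp _) _ hK] with x hx
  obtain ⟨L, hL⟩ := hx
  refine ⟨L.re, re_lim (hL.congr fun N => ?_)⟩
  congr 1
  refine sum_congr rfl fun n _ => ?_
  rw [pw_tm, eval_real, mul_assoc]
  rfl

lemma conv_tm {X : Type u} [MeasurableSpace X] {μ : Measure X} {S : ℝ → X → X} (hS : IsFlow μ S)
    {P : Polynomial ℤ} {a : ℝ} {f g h : X → ℂ} (hc : Conv P μ (tm hS a) f g h) : ConvAt P μ S a f g h := by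
  filter_upwards [hc] with x hx
  obtain ⟨L, hL⟩ := hx
  refine ⟨L, hL.congr fun N => ?_⟩
  congr 1
  refine sum_congr rfl fun n _ => ?_
  rw [pw_tm, pw_tm, pw_tm]
  have b2 : a * ((2 * P.eval (n : ℤ) : ℤ) : ℝ) = 2 * (a * ((P.eval (n : ℤ) : ℤ) : ℝ)) := by push_cast; ring
  have b3 : a * ((3 * P.eval (n : ℤ) : ℤ) : ℝ) = 3 * (a * ((P.eval (n : ℤ) : ℤ) : ℝ)) := by push_cast; ring
  rw [b2, b3]

lemma conv_X {X : Type u} [MeasurableSpace X] {μ : Measure X} {T : X ≃ᵐ X} {f g h : X → ℂ} :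
    Conv Polynomial.X μ T f g h ↔ ∀ᵐ x ∂μ, ∃ L : ℂ, Tendsto (fun N : ℕ => (1 / (N : ℂ)) * ∑ n ∈ Icc 1 N,
      f (T^[n] x) * g (T^[2 * n] x) * h (T^[3 * n] x)) atTop (nhds L) := by
  have hp : ∀ (n : ℕ) (x : X), f (pw T (Polynomial.X.eval (n : ℤ)) x) * g (pw T (2 * Polynomial.X.eval (n : ℤ)) x) *
      h (pw T (3 * Polynomial.X.eval (n : ℤ)) x) = f (T^[n] x) * g (T^[2 * n] x) * h (T^[3 * n] x) := by
    intro n x
    have e2 : (2 * (n : ℤ)) = ((2 * n : ℕ) : ℤ) := by push_cast; rfl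
    have e3 : (3 * (n : ℤ)) = ((3 * n : ℕ) : ℤ) := by push_cast; rfl
    rw [Polynomial.eval_X, e2, e3, pw_nat, pw_nat, pw_nat]
  unfold Conv
  simp only [hp]

/-- a divergent map gives a flow with divergent continuous averages -/
lemma susp_key {X : Type u} [MeasurableSpace X] {μ : Measure X} [IsProbabilityMeasure μ] {T : X ≃ᵐ X}
    (hT : MeasurePreserving T μ μ) {f g h : X → ℂ} (hf : Linf μ f) (hg : Linf μ g) (hh : Linf μ h)
    (hbad : ¬ Conv Polynomial.X μ T f g h) : ∃ (ν : Measure (ℝ × X)) (S : ℝ → ℝ × X → ℝ × X) (F G H : ℝ × X → ℂ),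
      IsProbabilityMeasure ν ∧ IsFlow ν S ∧ Linf ν F ∧ Linf ν G ∧ Linf ν H ∧ ¬ ConvCont ν S F G H := by
  obtain ⟨f', hf'm, ⟨Cf, hCf⟩, hff'⟩ := Pool.Agent.Y957.MC.exists_version hf.1 hf.2
  obtain ⟨g', hg'm, ⟨Cg, hCg⟩, hgg'⟩ := Pool.Agent.Y957.MC.exists_version hg.1 hg.2
  obtain ⟨h', hh'm, ⟨Ch, hCh⟩, hhh'⟩ := Pool.Agent.Y957.MC.exists_version hh.1 hh.2
  obtain ⟨C, hC⟩ : ∃ C, C = |Cf| + |Cg| + |Ch| := ⟨_, rfl⟩
  have hC0 : 0 ≤ C := by rw [hC]; positivity
  have b1 : ∀ x, ‖f' x‖ ≤ C := fun x => by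
    have := hCf x
    have := le_abs_self Cf
    have := abs_nonneg Cg
    have := abs_nonneg Ch
    linarith
  have b2 : ∀ x, ‖g' x‖ ≤ C := fun x => by
    have := hCg x
    have := le_abs_self Cg
    have := abs_nonneg Cf
    have := abs_nonneg Ch
    linarith
  have b3 : ∀ x, ‖h' x‖ ≤ C := fun x => by
    have := hCh x
    have := le_abs_self Ch
    have := abs_nonneg Cf
    have := abs_nonneg Cg
    linarith
  refine ⟨Pool.Agent.U587.ET.lam.prod μ, Pool.Agent.U587.ET.susp T, Pool.Agent.U587.ET.win f',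
    Pool.Agent.U587.ET.lift2 g', Pool.Agent.U587.ET.lift2 h', inferInstance,
    of_flow (Pool.Agent.U587.ET.susp_flow hT),
    ⟨(Pool.Agent.U587.ET.win_meas hf'm).aestronglyMeasurable, C, ae_of_all _ (Pool.Agent.U587.ET.win_bd hC0 b1)⟩,
    ⟨(Pool.Agent.U587.ET.lift2_meas hg'm).aestronglyMeasurable, C, ae_of_all _ fun p => b2 _⟩,
    ⟨(Pool.Agent.U587.ET.lift2_meas hh'm).aestronglyMeasurable, C, ae_of_all _ fun p => b3 _⟩, fun hcont => hbad ?_⟩
  have h2 : ∀ᵐ p ∂(Pool.Agent.U587.ET.lam.prod μ), ∃ L : ℂ, Tendsto (fun V : ℝ => (1 / (V : ℂ)) *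
      ∫ v in (0 : ℝ)..V, Pool.Agent.U587.ET.phi T f' g' h' p v) atTop (nhds L) := hcont
  have h3 := Measure.ae_ae_of_ae_prod h2
  have hJ : Pool.Agent.U587.ET.lam (Set.Ico (1 / 2 : ℝ) (9 / 16)) ≠ 0 := by
    unfold Pool.Agent.U587.ET.lam
    rw [Measure.restrict_apply measurableSet_Ico]
    have : Set.Ico (1 / 2 : ℝ) (9 / 16) ∩ Set.Ico 0 1 = Set.Ico (1 / 2 : ℝ) (9 / 16) := by
      apply Set.inter_eq_self_of_subset_left
      intro v hv
      exact ⟨by linarith [hv.1], by linarith [hv.2]⟩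
    rw [this, Real.volume_Ico]
    simp only [ne_eq, ENNReal.ofReal_eq_zero, not_le]
    norm_num
  obtain ⟨s, hs, hsx⟩ : ∃ s ∈ Set.Ico (1 / 2 : ℝ) (9 / 16), ∀ᵐ x ∂μ, ∃ L : ℂ,
      Tendsto (fun V : ℝ => (1 / (V : ℂ)) * ∫ v in (0 : ℝ)..V, Pool.Agent.U587.ET.phi T f' g' h' (s, x) v) atTop
        (nhds L) := by
    by_contra hne
    apply hJ
    refine measure_mono_null (fun s hs => ?_) (ae_iff.1 h3)
    exact fun hgood => hne ⟨s, hs, hgood⟩
  have hk : ∀ {k k' : X → ℂ}, k =ᵐ[μ] k' → ∀ᵐ x ∂μ, ∀ n : ℕ, k (T^[n] x) = k' (T^[n] x) := by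
    intro k k' hk
    rw [ae_all_iff]
    intro n
    exact (hT.iterate n).quasiMeasurePreserving.ae hk
  rw [conv_X]
  filter_upwards [hsx, hk hff', hk hgg', hk hhh'] with x hx x1 x2 x3
  obtain ⟨L, hL⟩ := hx
  refine ⟨16 * L, (Pool.Agent.U587.ET.disc_of_cont hT hf'm hg'm hh'm hC0 b1 b2 b3 hs x hL).congr fun N => ?_⟩
  congr 1
  refine sum_congr rfl fun n _ => ?_
  rw [x1, x2, x3]
  rfl

lemma countable_intPoly : Countable (Polynomial ℤ) := by
  have h : Function.Injective (fun p : Polynomial ℤ => (List.ofFn fun i : Fin (p.natDegree + 1) => p.coeff i)) := by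
    intro p q hpq
    simp only at hpq
    have h1 := congrArg List.length hpq
    simp only [List.length_ofFn] at h1
    ext n
    by_cases hn : n < p.natDegree + 1
    · have h2 : (List.ofFn fun i : Fin (p.natDegree + 1) => p.coeff i)[n]? =
        (List.ofFn fun i : Fin (q.natDegree + 1) => q.coeff i)[n]? := by rw [hpq]
      have hn' : n < q.natDegree + 1 := by omega
      rw [List.getElem?_eq_getElem (by simpa using hn), List.getElem?_eq_getElem (by simpa using hn')] at h2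
      simpa only [Option.some.injEq, List.getElem_ofFn] using h2
    · rw [Polynomial.coeff_eq_zero_of_natDegree_lt (by omega), Polynomial.coeff_eq_zero_of_natDegree_lt (by omega)]
  exact h.countable

/-- the exceptional set of all polynomials for one triple of functions with divergent continuous averages -/
lemma core_all {X : Type u} [MeasurableSpace X] {μ : Measure X} [IsProbabilityMeasure μ] {S : ℝ → X → X}
    (hS : IsFlow μ S) {f g h : X → ℂ} (hf : Linf μ f) (hg : Linf μ g) (hh : Linf μ h) (hc : ¬ ConvCont μ S f g h)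
    (d : ℕ) : ∃ D : Set ℝ, dimH D ≤ bnd d ∧ ∀ a : ℝ, 0 < a → a ∉ D → ∀ P, Pol d P →
      (∀ j, Pool.Agent.U587.DX.Sg μ (spd S j) (P.map (Int.castRingHom ℝ)) a) → ¬ ConvAt P μ S a f g h := by
  have := countable_intPoly
  choose D hD hDa using fun P : {P : Polynomial ℤ // Pol d P} => core hS hf hg hh P.2
  refine ⟨⋃ P, D P, ?_, fun a ha0 haD P hP hSg hcon => ?_⟩
  · rw [dimH_iUnion]
    exact iSup_le hD
  · rw [Set.mem_iUnion, not_exists] at haD
    exact hc ((hDa ⟨P, hP⟩ a ha0 (haD _) hSg).1 hcon)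

/-- one exceptional set for all functions, separable spaces -/
lemma core_sep {X : Type u} [MeasurableSpace X] {μ : Measure X} [IsProbabilityMeasure μ] [IsSeparable μ]
    {S : ℝ → X → X} (hS : IsFlow μ S) (d : ℕ) : ∃ D : Set ℝ, dimH D ≤ bnd d ∧ ∀ a : ℝ, 0 < a → a ∉ D →
      ∀ P, Pol d P → (∀ j, Pool.Agent.U587.DX.Sg μ (spd S j) (P.map (Int.castRingHom ℝ)) a) →
      ∀ f g h : X → ℂ, Linf μ f → Linf μ g → Linf μ h → (ConvAt P μ S a f g h ↔ ConvCont μ S f g h) := by
  have := countable_intPoly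
  have hex : ∀ P : {P : Polynomial ℤ // Pol d P}, ∃ D : Set ℝ, dimH D ≤ bnd d ∧ ∀ a : ℝ, 0 < a → a ∉ D →
      (∀ j, Pool.Agent.U587.DX.Sg μ (spd S j) (P.1.map (Int.castRingHom ℝ)) a) →
      ∀ f g h : X → ℂ, Linf μ f → Linf μ g → Linf μ h → (ConvAt P.1 μ S a f g h ↔ ConvCont μ S f g h) := by
    rintro ⟨P, hP⟩
    obtain ⟨hdeg, hlead⟩ := real_pol hP
    obtain ⟨D, hD, hDa⟩ := Pool.Agent.U527.Et.main (μ := μ) (fun j => spd_flow hS j) (P.map (Int.castRingHom ℝ))
      (by rw [hdeg]; exact hP.1) hlead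
    refine ⟨D, ?_, fun a ha0 haD hSg f g h hf hg hh => iff_of ((hDa a ha0 haD (![f, g, h])
      (fun j => (linf3 hf hg hh j).1) (fun j => (linf3 hf hg hh j).2)).2 hSg)⟩
    rw [← bnd_eq]
    rw [hdeg] at hD
    exact hD.trans (Pool.Agent.U527.Et.dm_mono hP.2.1 hP.1)
  choose D hD hDa using hex
  refine ⟨⋃ P, D P, ?_, fun a ha0 haD P hP hSg f g h hf hg hh => ?_⟩
  · rw [dimH_iUnion]
    exact iSup_le hD
  · rw [Set.mem_iUnion, not_exists] at haD
    exact hDa ⟨P, hP⟩ a ha0 (haD _) hSg f g h hf hg hh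

lemma pol_X : Pol 1 Polynomial.X :=
  ⟨by rw [Polynomial.natDegree_X]; norm_num, by rw [Polynomial.natDegree_X], by
    rw [Polynomial.leadingCoeff_X]; norm_num⟩

lemma not_cover {D D' : Set ℝ} {d : ℕ} (hd : 0 < d) (hD : dimH D ≤ bnd d) (hD' : dimH D' ≤ bnd d) :
    ¬ Set.Ioi (0 : ℝ) ⊆ D ∪ D' := by
  intro hsub
  have h1 := dimH_mono hsub
  rw [dimH_union, dimH_Ioi] at h1
  exact absurd (h1.trans (max_le hD hD')) (not_le.2 (bnd_lt hd))

/-- **Linear and polynomial cubic averages.** -/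
theorem result :
    (∀ (X : Type u) [MeasurableSpace X] (μ : Measure X) [IsProbabilityMeasure μ] (T : X ≃ᵐ X),
      MeasurePreserving T μ μ → ∀ f g h : X → ℂ, Linf μ f → Linf μ g → Linf μ h → ¬ Conv Polynomial.X μ T f g h →
      ∃ (ν : Measure (ℝ × X)) (S : ℝ → ℝ × X → ℝ × X) (F G H : ℝ × X → ℂ),
        IsProbabilityMeasure ν ∧ IsFlow ν S ∧ Linf ν F ∧ Linf ν G ∧ Linf ν H ∧ ∀ d : ℕ, 0 < d →
          dimH {a : ℝ | 0 < a ∧ ∃ P, Pol d P ∧ Good P ν S a} ≤ bnd d ∧
          ((∀ P, Pol d P → OneFunction.{u} P) →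
            dimH {a : ℝ | 0 < a ∧ ∃ P, Pol d P ∧ ConvAt P ν S a F G H} ≤ bnd d)) ∧
    (∀ d : ℕ, 0 < d →
      (∀ (X : Type u) [MeasurableSpace X] (μ : Measure X) [IsProbabilityMeasure μ] (S : ℝ → X → X), IsFlow μ S →
        bnd d < dimH {a : ℝ | 0 < a ∧ ∃ P, Pol d P ∧ Good P μ S a}) → Cubic.{u} Polynomial.X) ∧
    (∀ d P, Pol d P → Cubic.{u} P → Cubic.{u} Polynomial.X) ∧
    (∀ d P, Pol d P → OneFunction.{u} P →
      [Cubic.{u} Polynomial.X,
        AllFlows.{u} fun _ _ μ S f g h => dimH {a : ℝ | 0 < a ∧ ¬ ConvAt P μ S a f g h} ≤ bnd d,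
        AllFlows.{u} fun _ _ μ S f g h => bnd d < dimH {a : ℝ | 0 < a ∧ ConvAt P μ S a f g h}].TFAE) ∧
    (∀ d : ℕ, (∀ P, Pol d P → OneFunction.{u} P) →
      ∀ (X : Type u) [MeasurableSpace X] (μ : Measure X) [IsProbabilityMeasure μ] [IsSeparable μ] (S : ℝ → X → X),
        IsFlow μ S → ∃ D : Set ℝ, dimH D ≤ bnd d ∧
          ((∀ a : ℝ, 0 < a → a ∉ D → ∀ P, Pol d P → Good P μ S a) ∨
            ∀ a : ℝ, 0 < a → a ∉ D → ∀ P, Pol d P → ¬ Good P μ S a)) := by
  have key : ∀ d : ℕ, 0 < d →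
      (∀ (X : Type u) [MeasurableSpace X] (μ : Measure X) [IsProbabilityMeasure μ] (S : ℝ → X → X), IsFlow μ S →
        bnd d < dimH {a : ℝ | 0 < a ∧ ∃ P, Pol d P ∧ Good P μ S a}) → Cubic.{u} Polynomial.X := by
    intro d hd hC X _ μ _ T hT f g h hf hg hh
    by_contra hbad
    obtain ⟨ν, S, F, G, H, hν, hS, hF, hG, hH, hcont⟩ := susp_key hT hf hg hh hbad
    obtain ⟨D, hD, hDa⟩ := core_all hS hF hG hH hcont d
    refine absurd (hC (ℝ × X) ν S hS) (not_lt.2 ((dimH_mono ?_).trans hD))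
    rintro a ⟨ha0, P, hP, ha⟩
    by_contra haD
    exact hDa a ha0 haD P hP (sg_of_conv ha) (ha F G H hF hG hH)
  refine ⟨?_, key, ?_, ?_, ?_⟩
  · intro X _ μ _ T hT f g h hf hg hh hbad
    obtain ⟨ν, S, F, G, H, hν, hS, hF, hG, hH, hcont⟩ := susp_key hT hf hg hh hbad
    refine ⟨ν, S, F, G, H, hν, hS, hF, hG, hH, fun d hd => ?_⟩
    obtain ⟨D, hD, hDa⟩ := core_all hS hF hG hH hcont d
    constructor
    · refine (dimH_mono ?_).trans hD
      rintro a ⟨ha0, P, hP, ha⟩
      by_contra haD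
      exact hDa a ha0 haD P hP (sg_of_conv ha) (ha F G H hF hG hH)
    · intro hone
      refine (dimH_mono ?_).trans hD
      rintro a ⟨ha0, P, hP, ha⟩
      by_contra haD
      exact hDa a ha0 haD P hP (sg_of_one hS (hone P hP) a) ha
  · intro d P hP hC
    have hd : 0 < d := hP.1.trans_le hP.2.1
    refine key d hd fun X _ μ _ S hS => ?_
    by_contra hcon
    refine not_cover hd (not_lt.1 hcon) (D' := ∅) (by rw [dimH_empty]; exact zero_le) fun a ha => ?_
    exact Or.inl ⟨ha, P, hP, fun f g h hf hg hh => conv_tm hS (hC X μ (tm hS a) (hS.mp a) f g h hf hg hh)⟩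
  · intro d P hP hone
    have hd : 0 < d := hP.1.trans_le hP.2.1
    have h12 : Cubic.{u} Polynomial.X →
        AllFlows.{u} fun _ _ μ S f g h => dimH {a : ℝ | 0 < a ∧ ¬ ConvAt P μ S a f g h} ≤ bnd d := by
      intro hQ X _ μ _ S hS f g h hf hg hh
      have hall : ∀ (a : ℝ) (f g h : X → ℂ), Linf μ f → Linf μ g → Linf μ h → ConvAt Polynomial.X μ S a f g h :=
        fun a f g h hf hg hh => conv_tm hS (hQ X μ (tm hS a) (hS.mp a) f g h hf hg hh)
      have hcont : ConvCont μ S f g h := by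
        obtain ⟨D, hD, hDa⟩ := core hS hf hg hh pol_X
        obtain ⟨a, ha0, haD⟩ : ∃ a : ℝ, 0 < a ∧ a ∉ D := by
          by_contra hne
          refine not_cover one_pos hD (D' := ∅) (by rw [dimH_empty]; exact zero_le) fun a ha => ?_
          by_contra haD
          rw [Set.union_empty] at haD
          exact hne ⟨a, ha, haD⟩
        exact (hDa a ha0 haD (sg_of_conv (hall a))).1 (hall a f g h hf hg hh)
      obtain ⟨D, hD, hDa⟩ := core hS hf hg hh hP
      refine (dimH_mono ?_).trans hD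
      rintro a ⟨ha0, ha⟩
      by_contra haD
      exact ha ((hDa a ha0 haD (sg_of_one hS hone a)).2 hcont)
    have h23 : (AllFlows.{u} fun _ _ μ S f g h => dimH {a : ℝ | 0 < a ∧ ¬ ConvAt P μ S a f g h} ≤ bnd d) →
        AllFlows.{u} fun _ _ μ S f g h => bnd d < dimH {a : ℝ | 0 < a ∧ ConvAt P μ S a f g h} := by
      intro h2 X _ μ _ S hS f g h hf hg hh
      by_contra hcon
      refine not_cover hd (h2 X μ S hS f g h hf hg hh) (not_lt.1 hcon) fun a ha => ?_
      by_cases hc : ConvAt P μ S a f g h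
      · exact Or.inr ⟨ha, hc⟩
      · exact Or.inl ⟨ha, hc⟩
    have h31 : (AllFlows.{u} fun _ _ μ S f g h => bnd d < dimH {a : ℝ | 0 < a ∧ ConvAt P μ S a f g h}) →
        Cubic.{u} Polynomial.X := by
      intro h3 X _ μ _ T hT f g h hf hg hh
      by_contra hbad
      obtain ⟨ν, S, F, G, H, hν, hS, hF, hG, hH, hcont⟩ := susp_key hT hf hg hh hbad
      obtain ⟨D, hD, hDa⟩ := core hS hF hG hH hP
      refine absurd (h3 (ℝ × X) ν S hS F G H hF hG hH) (not_lt.2 ((dimH_mono ?_).trans hD))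
      rintro a ⟨ha0, ha⟩
      by_contra haD
      exact hcont ((hDa a ha0 haD (sg_of_one hS hone a)).1 ha)
    tfae_have 1 → 2 := h12
    tfae_have 2 → 3 := h23
    tfae_have 3 → 1 := h31
    tfae_finish
  · intro d hone X _ μ _ _ S hS
    obtain ⟨D, hD, hDa⟩ := core_sep (μ := μ) hS d
    refine ⟨D, hD, ?_⟩
    by_cases hc : ∀ f g h : X → ℂ, Linf μ f → Linf μ g → Linf μ h → ConvCont μ S f g h
    · left
      intro a ha0 haD P hP f g h hf hg hh
      exact (hDa a ha0 haD P hP (sg_of_one hS (hone P hP) a) f g h hf hg hh).2 (hc f g h hf hg hh)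
    · right
      intro a ha0 haD P hP hgood
      apply hc
      intro f g h hf hg hh
      exact (hDa a ha0 haD P hP (sg_of_one hS (hone P hP) a) f g h hf hg hh).1 (hgood f g h hf hg hh)

end Pool.Agent.Results.MP_9721b5_an.PolynomialCubicTimes
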