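import Pool.Agent.U946.BP.Code

set_option autoImplicit false

/-!
# Cubic averages: one set, and stationary sequences of zeros and ones, are enough

`Q1` is the assertion of the problem, in the form of the frozen statement (`T` need not be invertible), `Q1Inv` for
invertible `T`. Each of them is equivalent to an assertion about ONE set and to an assertion about stationary sequences of
zeros and ones `x_0, x_1, ...`:

for every stationary sequence, almost surely the set of the `n` with `x_n = x_(2n) = x_(3n) = 1` has a density.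

So the whole problem is a question about the shift on `{0,1}^ℕ` and one explicit set of `n` for each point.

Proof. By multilinearity and uniform approximation one needs the functions `1_A, 1_B, 1_C` only. Let `p ≥ 7` be a prime
and `s` a residue `≠ 0` modulo `p`. In `ℤ/p × X` with the map `(r, x) ↦ (r + 1, T x)` let `E` be the union of `{s} × A`,
`{2s} × B`, `{3s} × C`. For the starting point `(0, x)` the points at the times `n, 2n, 3n` are all in `E` if and only if
`n = s` modulo `p` and `T^n x ∈ A`, `T^(2n) x ∈ B`, `T^(3n) x ∈ C`, since `{1, 2, 3}` is mapped into itself by no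
multiplication by `u = 2, 3` modulo `p` (`4` and `6` are not in it). The sum over `s` gives all `n` not divisible by `p`;
the other `n` have density `1/p`, and `p → ∞`. Finally a set `E` gives the stationary sequence `n ↦ [T^n y ∈ E]`.
-/

namespace Pool.Agent.Results.MP_9721b5_an.StationaryZeroOne

open MeasureTheory Filter Finset

universe u

/-- the assertion of the problem for maps which need not be invertible (frozen statement) -/
def Q1 : Prop := ∀ (X : Type u) [MeasurableSpace X] (μ : Measure X) [IsProbabilityMeasure μ] (T : X → X),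
  MeasurePreserving T μ μ → ∀ f g h : X → ℝ, MemLp f ⊤ μ → MemLp g ⊤ μ → MemLp h ⊤ μ →
    ∀ᵐ x ∂μ, ∃ L : ℝ, Tendsto (fun N : ℕ => (N : ℝ)⁻¹ *
      ∑ n ∈ Finset.Icc 1 N, f (T^[n] x) * g (T^[2 * n] x) * h (T^[3 * n] x)) atTop (nhds L)

/-- the assertion of the problem for invertible maps -/
def Q1Inv : Prop := ∀ (X : Type u) [MeasurableSpace X] (μ : Measure X) [IsProbabilityMeasure μ] (T : X ≃ᵐ X),
  MeasurePreserving T μ μ → ∀ f g h : X → ℝ, MemLp f ⊤ μ → MemLp g ⊤ μ → MemLp h ⊤ μ →
    ∀ᵐ x ∂μ, ∃ L : ℝ, Tendsto (fun N : ℕ => (N : ℝ)⁻¹ *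
      ∑ n ∈ Finset.Icc 1 N, f (T^[n] x) * g (T^[2 * n] x) * h (T^[3 * n] x)) atTop (nhds L)

open Classical in
/-- the set `A` of positive integers has a density -/
def HasDensity (A : Set ℕ) : Prop :=
  ∃ L : ℝ, Tendsto (fun N : ℕ => (((Finset.Icc 1 N).filter (fun n => n ∈ A)).card : ℝ) / N) atTop (nhds L)

/-- one set, maps which need not be invertible -/
def OneSet : Prop := ∀ (X : Type u) [MeasurableSpace X] (μ : Measure X) [IsProbabilityMeasure μ] (T : X → X),
  MeasurePreserving T μ μ → ∀ E : Set X, MeasurableSet E →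
    ∀ᵐ x ∂μ, HasDensity {n | T^[n] x ∈ E ∧ T^[2 * n] x ∈ E ∧ T^[3 * n] x ∈ E}

/-- one set, invertible maps -/
def OneSetInv : Prop := ∀ (X : Type u) [MeasurableSpace X] (μ : Measure X) [IsProbabilityMeasure μ] (T : X ≃ᵐ X),
  MeasurePreserving T μ μ → ∀ E : Set X, MeasurableSet E →
    ∀ᵐ x ∂μ, HasDensity {n | T^[n] x ∈ E ∧ T^[2 * n] x ∈ E ∧ T^[3 * n] x ∈ E}

/-- one-sided stationary sequences of zeros and ones -/
def Stationary : Prop := ∀ ν : Measure (ℕ → Bool), IsProbabilityMeasure ν →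
  MeasurePreserving (fun (x : ℕ → Bool) (n : ℕ) => x (n + 1)) ν ν →
    ∀ᵐ x ∂ν, HasDensity {n | x n = true ∧ x (2 * n) = true ∧ x (3 * n) = true}

/-- two-sided stationary sequences of zeros and ones -/
def StationaryTwo : Prop := ∀ ν : Measure (ℤ → Bool), IsProbabilityMeasure ν →
  MeasurePreserving (fun (x : ℤ → Bool) (k : ℤ) => x (k + 1)) ν ν →
    ∀ᵐ x ∂ν, HasDensity {n | x n = true ∧ x (2 * n) = true ∧ x (3 * n) = true}

open Pool.Agent.U946.BP in
lemma density_iff (A : Set ℕ) (φ : ℕ → ℝ) (h1 : ∀ n ∈ A, φ n = 1) (h0 : ∀ n, n ∉ A → φ n = 0) :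
    HasDensity A ↔ Cv φ := by
  classical
  have h : ∀ N : ℕ, (((Finset.Icc 1 N).filter (fun n => n ∈ A)).card : ℝ) / N = av φ N := by
    intro N
    unfold av
    have : ∑ n ∈ Icc 1 N, φ n = ∑ n ∈ Icc 1 N, if n ∈ A then (1 : ℝ) else 0 := by
      refine sum_congr rfl fun n _ => ?_
      by_cases hn : n ∈ A
      · rw [if_pos hn, h1 n hn]
      · rw [if_neg hn, h0 n hn]
    rw [this, sum_boole, div_eq_inv_mul]
  unfold HasDensity Cv
  constructor
  · rintro ⟨L, hL⟩
    refine ⟨L, hL.congr fun N => ?_⟩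
    rw [← h N]
  · rintro ⟨L, hL⟩
    refine ⟨L, hL.congr fun N => ?_⟩
    rw [← h N]

open Pool.Agent.U946.BP in
lemma set_iff {X : Type u} (T : X → X) (E : Set X) (x : X) :
    HasDensity {n | T^[n] x ∈ E ∧ T^[2 * n] x ∈ E ∧ T^[3 * n] x ∈ E} ↔ Cv (tri T (ind E) (ind E) (ind E) x) := by
  refine density_iff _ _ ?_ ?_
  · rintro n ⟨h1, h2, h3⟩
    unfold tri ind
    rw [Set.indicator_of_mem h1, Set.indicator_of_mem h2, Set.indicator_of_mem h3]
    norm_num
  · intro n hn
    unfold tri ind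
    by_cases h1 : T^[n] x ∈ E
    · by_cases h2 : T^[2 * n] x ∈ E
      · have h3 : T^[3 * n] x ∉ E := fun h3 => hn ⟨h1, h2, h3⟩
        rw [Set.indicator_of_notMem h3]
        ring
      · rw [Set.indicator_of_notMem h2]
        ring
    · rw [Set.indicator_of_notMem h1]
      ring

open Pool.Agent.U946.BP in
lemma seq_iff (x : ℕ → Bool) :
    HasDensity {n | x n = true ∧ x (2 * n) = true ∧ x (3 * n) = true} ↔ Cv (bits x) := by
  refine density_iff _ _ ?_ ?_
  · intro n hn
    exact if_pos hn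
  · intro n hn
    exact if_neg hn

lemma memLp_ind {X : Type u} [MeasurableSpace X] (μ : Measure X) [IsProbabilityMeasure μ] {E : Set X}
    (hE : MeasurableSet E) : MemLp (Pool.Agent.U946.BP.ind E) ⊤ μ :=
  memLp_top_of_bound (Pool.Agent.U946.BP.ind_meas hE).aestronglyMeasurable 1
    (ae_of_all _ fun x => Pool.Agent.U946.BP.ind_bd E x)

lemma oneSet_of_q1 (h : Q1.{u}) : OneSet.{u} := by
  intro X _ μ _ T hT E hE
  filter_upwards [h X μ T hT _ _ _ (memLp_ind μ hE) (memLp_ind μ hE) (memLp_ind μ hE)] with x hx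
  exact (set_iff T E x).2 hx

lemma oneSetInv_of_q1 (h : Q1Inv.{u}) : OneSetInv.{u} := by
  intro X _ μ _ T hT E hE
  filter_upwards [h X μ T hT _ _ _ (memLp_ind μ hE) (memLp_ind μ hE) (memLp_ind μ hE)] with x hx
  exact (set_iff T E x).2 hx

lemma stat_of_oneSet (h : OneSet.{0}) : Stationary := by
  intro ν hν hT
  have hE : MeasurableSet {x : ℕ → Bool | x 0 = true} :=
    measurableSet_eq_fun (measurable_pi_apply 0) measurable_const
  filter_upwards [h (ℕ → Bool) ν _ hT _ hE] with x hx
  have hit : ∀ n, (fun (x : ℕ → Bool) (n : ℕ) => x (n + 1))^[n] x 0 = x n := by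
    intro n
    have := Pool.Agent.U946.BP.sh_iter x n 0
    rw [zero_add] at this
    exact this
  simpa only [Set.mem_ofPred_eq, hit] using hx

lemma stat2_of_oneSet (h : OneSetInv.{0}) : StationaryTwo := by
  intro ν hν hT
  have hE : MeasurableSet {x : ℤ → Bool | x 0 = true} :=
    measurableSet_eq_fun (measurable_pi_apply 0) measurable_const
  filter_upwards [h (ℤ → Bool) ν Pool.Agent.U946.BP.she hT _ hE] with x hx
  have hit : ∀ n : ℕ, (Pool.Agent.U946.BP.she)^[n] x 0 = x n := by
    intro n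
    have := Pool.Agent.U946.BP.sh2_iter x n 0
    rw [zero_add] at this
    exact this
  simp only [Set.mem_ofPred_eq, hit] at hx
  push_cast at hx
  exact hx

lemma q1_of_stat (h : Stationary) : Q1.{u} := by
  intro X _ μ _ T hT f g k hf hg hk
  have hst : ∀ ν : Measure (ℕ → Bool), IsProbabilityMeasure ν → MeasurePreserving Pool.Agent.U946.BP.sh ν ν →
      ∀ᵐ x ∂ν, Pool.Agent.U946.BP.Cv (Pool.Agent.U946.BP.bits x) := by
    intro ν hν hs
    filter_upwards [h ν hν hs] with x hx using (seq_iff x).1 hx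
  refine Pool.Agent.U946.BP.of_bdd hT ?_ hf hg hk
  intro A B C hA hB hC
  refine Pool.Agent.U946.BP.of_primes A B C fun p hp hp7 => ?_
  have : Fact p.Prime := ⟨hp⟩
  refine Pool.Agent.U946.BP.of_one hp7 (fun E hE => ?_) hA hB hC
  exact Pool.Agent.U946.BP.of_stat hst ((Pool.Agent.U946.BP.ru_mp p).prod hT) hE

lemma q1Inv_of_stat (h : StationaryTwo) : Q1Inv.{u} := by
  intro X _ μ _ T hT f g k hf hg hk
  have hst : ∀ ν : Measure (ℤ → Bool), IsProbabilityMeasure ν → MeasurePreserving Pool.Agent.U946.BP.sh2 ν ν →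
      ∀ᵐ x ∂ν, Pool.Agent.U946.BP.Cv (Pool.Agent.U946.BP.bits fun n : ℕ => x n) := by
    intro ν hν hs
    filter_upwards [h ν hν hs] with x hx
    refine (seq_iff _).1 ?_
    push_cast
    exact hx
  refine Pool.Agent.U946.BP.of_bdd hT ?_ hf hg hk
  intro A B C hA hB hC
  refine Pool.Agent.U946.BP.of_primes A B C fun p hp hp7 => ?_
  have : Fact p.Prime := ⟨hp⟩
  refine Pool.Agent.U946.BP.of_one hp7 (fun E hE => ?_) hA hB hC
  have hmp : MeasurePreserving (((MeasurableEquiv.addRight (1 : ZMod p)).prodCongr T : ZMod p × X ≃ᵐ ZMod p × X))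
      ((Pool.Agent.U946.BP.ru p).prod μ) ((Pool.Agent.U946.BP.ru p).prod μ) :=
    (Pool.Agent.U946.BP.ru_mp p).prod hT
  exact Pool.Agent.U946.BP.of_stat2 hst hmp hE

/-- **The problem is a question about stationary sequences of zeros and ones.** -/
theorem result :
    [Q1.{0}, OneSet.{0}, Stationary].TFAE ∧ [Q1Inv.{0}, OneSetInv.{0}, StationaryTwo].TFAE ∧
    (Stationary → Q1.{u}) ∧ (StationaryTwo → Q1Inv.{u}) := by
  refine ⟨?_, ?_, q1_of_stat, q1Inv_of_stat⟩
  · tfae_have 1 → 2 := oneSet_of_q1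
    tfae_have 2 → 3 := stat_of_oneSet
    tfae_have 3 → 1 := q1_of_stat
    tfae_finish
  · tfae_have 1 → 2 := oneSetInv_of_q1
    tfae_have 2 → 3 := stat2_of_oneSet
    tfae_have 3 → 1 := q1Inv_of_stat
    tfae_finish

end Pool.Agent.Results.MP_9721b5_an.StationaryZeroOne
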